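import Mathlib

/-!
# Additive equations over the Witt vectors
-/

set_option autoImplicit false

namespace Pool.Agent.P8H34.UA

open WittVector

variable {p : ℕ} [hp : Fact p.Prime]

section perfect

set_option linter.unusedSectionVars false

variable {K : Type*} [Field K] [CharP K p] [PerfectRing K p]

theorem dvd_iff_coeff_zero (x : WittVector p K) : (p : WittVector p K) ∣ x ↔ x.coeff 0 = 0 := by
  rw [← Ideal.mem_span_singleton, mem_span_p_iff_coeff_zero_eq_zero]

theorem dvd_pow_iff (x : WittVector p K) (n : ℕ) :
    (p : WittVector p K) ^ n ∣ x ↔ ∀ m < n, x.coeff m = 0 := by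
  rw [← Ideal.mem_span_singleton, mem_span_p_pow_iff_le_coeff_eq_zero]

theorem coeff_zero_sub (x y : WittVector p K) : (x - y).coeff 0 = x.coeff 0 - y.coeff 0 :=
  map_sub (constantCoeff : WittVector p K →+* K) x y

theorem coeff_zero_add (x y : WittVector p K) : (x + y).coeff 0 = x.coeff 0 + y.coeff 0 :=
  map_add (constantCoeff : WittVector p K →+* K) x y

theorem coeff_zero_mul (x y : WittVector p K) : (x * y).coeff 0 = x.coeff 0 * y.coeff 0 :=
  map_mul (constantCoeff : WittVector p K →+* K) x y

theorem eq_of_forall_pow_dvd {x y : WittVector p K} (h : ∀ n : ℕ, (p : WittVector p K) ^ n ∣ x - y) :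
    x = y := by
  have h1 : x - y = 0 := by
    ext n
    rw [WittVector.zero_coeff]
    exact (dvd_pow_iff (x - y) (n + 1)).1 (h (n + 1)) n (Nat.lt_succ_self n)
  exact sub_eq_zero.1 h1

/-- An additive operator on the Witt vectors which is surjective modulo `p` is surjective. -/
theorem surjective_of_mod (f : WittVector p K →+ WittVector p K)
    (hf : ∀ y : WittVector p K, ∃ x, (p : WittVector p K) ∣ y - f x) : Function.Surjective f := by
  have hmul : ∀ (n : ℕ) (x : WittVector p K),
      f ((p : WittVector p K) ^ n * x) = (p : WittVector p K) ^ n * f x := by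
    intro n x
    have h1 : (p : WittVector p K) ^ n * x = (p ^ n : ℕ) • x := by
      rw [nsmul_eq_mul, Nat.cast_pow]
    rw [h1, map_nsmul, nsmul_eq_mul, Nat.cast_pow]
  intro y
  choose g r hr using hf
  let Y : ℕ → WittVector p K := fun n => r^[n] y
  have hY : ∀ n, Y n = f (g (Y n)) + p * Y (n + 1) := by
    intro n
    have h1 := hr (Y n)
    have h2 : Y (n + 1) = r (Y n) := Function.iterate_succ_apply' r n y
    rw [h2, ← h1]
    ring
  let s : ℕ → WittVector p K := fun n => ∑ i ∈ Finset.range n, (p : WittVector p K) ^ i * g (Y i)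
  have hs : ∀ n, y - f (s n) = (p : WittVector p K) ^ n * Y n := by
    intro n
    induction n with
    | zero => simp [s, Y]
    | succ n ih =>
      have h1 : s (n + 1) = s n + (p : WittVector p K) ^ n * g (Y n) := Finset.sum_range_succ _ _
      rw [h1, map_add, hmul, ← sub_sub, ih]
      have h2 := hY n
      linear_combination (p : WittVector p K) ^ n * h2
  have hC : ∀ {m n : ℕ}, m ≤ n →
      s m ≡ s n [SMOD (Ideal.span {(p : WittVector p K)} ^ m • ⊤ : Submodule (WittVector p K)
        (WittVector p K))] := by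
    intro m n hmn
    rw [SModEq.sub_mem, smul_eq_mul, Ideal.mul_top, Ideal.span_singleton_pow,
      Ideal.mem_span_singleton]
    have h1 : s m - s n = - ∑ i ∈ Finset.Ico m n, (p : WittVector p K) ^ i * g (Y i) := by
      rw [Finset.sum_Ico_eq_sub _ hmn]
      ring
    rw [h1, dvd_neg]
    refine Finset.dvd_sum fun i hi => ?_
    exact Dvd.dvd.mul_right (pow_dvd_pow _ (Finset.mem_Ico.1 hi).1) _
  obtain ⟨L, hL⟩ := IsPrecomplete.prec' (I := Ideal.span {(p : WittVector p K)}) s hC
  refine ⟨L, (eq_of_forall_pow_dvd fun n => ?_).symm⟩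
  have h1 := hL n
  rw [SModEq.sub_mem, smul_eq_mul, Ideal.mul_top, Ideal.span_singleton_pow,
    Ideal.mem_span_singleton] at h1
  obtain ⟨t, ht⟩ := h1
  have h2 : L = s n - (p : WittVector p K) ^ n * t := by rw [← ht]; ring
  have h3 : y - f L = (p : WittVector p K) ^ n * (Y n + f t) := by
    rw [h2, map_sub, hmul]
    linear_combination hs n
  exact ⟨_, h3⟩

/-- If the first component of `f x` is `P` of the first component of `x`, with a surjective `P`, then
the additive operator `f` is surjective. -/
theorem surjective_of_coeff (f : WittVector p K →+ WittVector p K) (P : K → K)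
    (hP : Function.Surjective P) (h : ∀ x, (f x).coeff 0 = P (x.coeff 0)) :
    Function.Surjective f := by
  refine surjective_of_mod f fun y => ?_
  obtain ⟨t, ht⟩ := hP (y.coeff 0)
  refine ⟨teichmuller p t, ?_⟩
  rw [dvd_iff_coeff_zero, coeff_zero_sub, h, teichmuller_coeff_zero, ht, sub_self]

theorem coeff_iterate_frobenius (x : WittVector p K) (n i : ℕ) :
    ((frobenius : WittVector p K →+* WittVector p K)^[n] x).coeff i = x.coeff i ^ p ^ n := by
  rw [iterate_frobenius_coeff]

end perfect

section closed

variable {K : Type*} [Field K] [CharP K p] [IsAlgClosed K]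

theorem exists_pow_mul (a : K) (ha : a ≠ 0) (n : ℕ) :
    Function.Surjective (fun x : K => a * x ^ p ^ n) := by
  intro y
  obtain ⟨z, hz⟩ := IsAlgClosed.exists_pow_nat_eq (y / a) (pow_pos hp.out.pos n)
  exact ⟨z, by simp only; rw [hz]; field_simp⟩

theorem exists_add_pow (n : ℕ) :
    Function.Surjective (fun x : K => x + x ^ p ^ (n + 1)) := by
  intro y
  have h0 : 1 < p ^ (n + 1) := Nat.one_lt_pow (Nat.succ_ne_zero n) hp.out.one_lt
  let q : Polynomial K := Polynomial.X ^ p ^ (n + 1) + Polynomial.X - Polynomial.C y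
  have h1 : q.degree ≠ 0 := by
    have h2 : q.degree = ((p ^ (n + 1) : ℕ) : WithBot ℕ) := by
      have h3 : q = Polynomial.X ^ p ^ (n + 1) + (Polynomial.X - Polynomial.C y) := by
        simp only [q]; ring
      rw [h3, Polynomial.degree_add_eq_left_of_degree_lt, Polynomial.degree_X_pow]
      rw [Polynomial.degree_X_sub_C, Polynomial.degree_X_pow]
      exact_mod_cast h0
    rw [h2]
    exact_mod_cast (by omega : p ^ (n + 1) ≠ 0)
  obtain ⟨z, hz⟩ := IsAlgClosed.exists_root q h1
  refine ⟨z, ?_⟩
  simp only [q, Polynomial.IsRoot, Polynomial.eval_sub, Polynomial.eval_add, Polynomial.eval_pow,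
    Polynomial.eval_X, Polynomial.eval_C] at hz
  simp only
  linear_combination hz

end closed

end Pool.Agent.P8H34.UA
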