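import Pool.Agent.P8H34.UA.Ex
import Pool.Agent.P8H34.UA.Witt

/-!
# The `a`-number of the examples
-/

set_option autoImplicit false

namespace Pool.Agent.P8H34.UA

open Matrix WittVector

universe u

variable {p : ℕ} [hp : Fact p.Prime] {k : Type u} [Field k] [CharP k p] [IsAlgClosed k]

theorem exM_F (g : ℕ) (x : Fin 12 → WittVector p k) :
    (exM p k g).F x = ![p * frobenius (x 11), p * frobenius (x 0), p * frobenius (x 1),
      p * frobenius (x 2) + g * p ^ 3 * frobenius (x 11), p * frobenius (x 3), p * frobenius (x 4),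
      frobenius (x 5) + (p ^ 2 - p ^ 4) * frobenius (x 11), frobenius (x 6), frobenius (x 7),
      frobenius (x 8) + g * p * frobenius (x 11), frobenius (x 9), frobenius (x 10)] := by
  rw [DieudonneModule.F, exM, matF_mulVec]

theorem exM_V (g : ℕ) (x : Fin 12 → WittVector p k) :
    (exM p k g).V x = ![(frobeniusEquiv p k).symm (x 1), (frobeniusEquiv p k).symm (x 2),
      (frobeniusEquiv p k).symm (x 3) - g * p ^ 2 * (frobeniusEquiv p k).symm (x 0),
      (frobeniusEquiv p k).symm (x 4), (frobeniusEquiv p k).symm (x 5),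
      p * (frobeniusEquiv p k).symm (x 6) + (p ^ 4 - p ^ 2) * (frobeniusEquiv p k).symm (x 0),
      p * (frobeniusEquiv p k).symm (x 7), p * (frobeniusEquiv p k).symm (x 8),
      p * (frobeniusEquiv p k).symm (x 9) - g * p * (frobeniusEquiv p k).symm (x 0),
      p * (frobeniusEquiv p k).symm (x 10), p * (frobeniusEquiv p k).symm (x 11),
      (frobeniusEquiv p k).symm (x 0)] := by
  rw [DieudonneModule.V, exM, matV_mulVec]

theorem mem_span_FV (g : ℕ) (z : Fin 12 → WittVector p k) :
    z ∈ Submodule.span (WittVector p k) (Set.range (exM p k g).F ∪ Set.range (exM p k g).V) ↔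
      (p : WittVector p k) ∣ z 5 := by
  constructor
  · intro h
    induction h using Submodule.span_induction with
    | mem x hx =>
      rcases hx with ⟨y, rfl⟩ | ⟨y, rfl⟩
      · rw [exM_F]
        exact ⟨_, rfl⟩
      · rw [exM_V]
        refine ⟨(frobeniusEquiv p k).symm (y 6) + (p ^ 3 - p) * (frobeniusEquiv p k).symm (y 0), ?_⟩
        change p * (frobeniusEquiv p k).symm (y 6)
          + (p ^ 4 - p ^ 2) * (frobeniusEquiv p k).symm (y 0) = _
        ring
    | zero => exact dvd_zero _
    | add x y _ _ hx hy => exact dvd_add hx hy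
    | smul a x _ hx => exact Dvd.dvd.mul_left hx _
  · rintro ⟨t, ht⟩
    let τ := (frobeniusEquiv p k).symm
    have hτ : ∀ a, frobenius (τ a) = a := fun a => (frobeniusEquiv p k).apply_symm_apply a
    have hτ' : ∀ a, (frobeniusEquiv p k).symm (frobenius a) = a :=
      fun a => (frobeniusEquiv p k).symm_apply_apply a
    have h1 : z = (exM p k g).F ![0, 0, 0, 0, τ t, τ (z 6), τ (z 7), τ (z 8), τ (z 9), τ (z 10),
          τ (z 11), 0]
        + (exM p k g).V ![0, frobenius (z 0), frobenius (z 1), frobenius (z 2), frobenius (z 3),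
          frobenius (z 4), 0, 0, 0, 0, 0, 0] := by
      rw [exM_F, exM_V]
      ext i : 1
      fin_cases i <;> simp [hτ, hτ', ht]
    rw [h1]
    exact Submodule.add_mem _ (Submodule.subset_span (Or.inl ⟨_, rfl⟩))
      (Submodule.subset_span (Or.inr ⟨_, rfl⟩))

theorem exM_aNumber (g : ℕ) : (exM p k g).aNumber = 1 := by
  rw [DieudonneModule.aNumber, Module.length_eq_one_iff, isSimpleModule_iff_isCoatom]
  constructor
  · intro h
    have h1 : (Pi.single 5 1 : Fin 12 → WittVector p k) ∈ Submodule.span (WittVector p k)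
        (Set.range (exM p k g).F ∪ Set.range (exM p k g).V) := by rw [h]; trivial
    rw [mem_span_FV, Pi.single_eq_same] at h1
    exact (WittVector.irreducible p (k := k)).not_isUnit (isUnit_of_dvd_one h1)
  · intro T hT
    obtain ⟨hle, z, hzT, hz⟩ := Set.ssubset_iff_exists.1 (SetLike.coe_ssubset_coe.2 hT)
    have hle' : ∀ y : Fin 12 → WittVector p k, (p : WittVector p k) ∣ y 5 → y ∈ T :=
      fun y hy => hle ((mem_span_FV g y).2 hy)
    have hz1 : ¬ (p : WittVector p k) ∣ z 5 := fun h => hz ((mem_span_FV g z).2 h)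
    rw [dvd_iff_coeff_zero] at hz1
    obtain ⟨v, hv⟩ := isUnit_of_coeff_zero_ne_zero (z 5) hz1
    rw [eq_top_iff]
    intro y _
    have h1 : y = (y - (y 5 * (v⁻¹ : (WittVector p k)ˣ)) • z)
        + (y 5 * (v⁻¹ : (WittVector p k)ˣ)) • z := by abel
    rw [h1]
    refine T.add_mem (hle' _ ?_) (T.smul_mem _ hzT)
    have h2 : (y - (y 5 * (v⁻¹ : (WittVector p k)ˣ)) • z) 5 = 0 := by
      rw [Pi.sub_apply, Pi.smul_apply, smul_eq_mul, ← hv, mul_assoc, Units.inv_mul, mul_one, sub_self]
    rw [h2]
    exact dvd_zero _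

end Pool.Agent.P8H34.UA
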