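import Mathlib

/-!
# Dieudonné modules, the group `U` of the exterior square, isogenies

Definitions for the isogeny type of `U_A` (problem `MP_381773_ag`).

* A quasi-algebraic group `G` over the algebraically closed field `k` gives the functor `K ↦ G(K)` from
  the algebraically closed extension fields of `k` to the abelian groups. On the points over
  algebraically closed fields kernels and cokernels of homomorphisms of (pro-)quasi-algebraic groups are
  computed as kernels and cokernels of abelian groups. So we describe all groups by these functors
  (`GrpFunctor`) and a surjective homomorphism with finite kernel by a natural transformation which is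
  surjective on the points over each `K`, with a finite kernel, all of whose points are defined over `k`
  (`Isogeny`).
* A Dieudonné module of rank `n` is given by the matrices of `F` and `V` in a basis.
-/

set_option autoImplicit false

namespace Pool.Agent.P8H34.UA

open Matrix WittVector

universe u

/-! ### Functors on algebraically closed extension fields and isogenies -/

/-- An algebraically closed extension field of the field `k`. -/
structure AlgClosedExt (k : Type u) [Field k] where
  /-- the extension field -/
  carrier : Type u
  [field : Field carrier]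
  [isAlgClosed : IsAlgClosed carrier]
  [algebra : Algebra k carrier]

attribute [instance] AlgClosedExt.field AlgClosedExt.isAlgClosed AlgClosedExt.algebra

/-- The algebraically closed field `k` as an extension field of itself. -/
def baseExt (k : Type u) [Field k] [IsAlgClosed k] : AlgClosedExt k where
  carrier := k

/-- The `k`-embeddings `K → K'`. -/
def Emb {k : Type u} [Field k] (K K' : AlgClosedExt k) : Type u := K.carrier →ₐ[k] K'.carrier

/-- The identity `K → K`. -/
def Emb.id {k : Type u} [Field k] (K : AlgClosedExt k) : Emb K K := AlgHom.id k K.carrier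

/-- The composition of `k`-embeddings. -/
def Emb.comp {k : Type u} [Field k] {K K' K'' : AlgClosedExt k} (f' : Emb K' K'') (f : Emb K K') :
    Emb K K'' := AlgHom.comp f' f

/-- The embedding `k → K`. -/
def Emb.ofBase {k : Type u} [Field k] [IsAlgClosed k] (K : AlgClosedExt k) : Emb (baseExt k) K :=
  Algebra.ofId k K.carrier

/-- A functor from the category of the algebraically closed extension fields `K` of `k` (the morphisms
are the `k`-embeddings) to the category of abelian groups. Each quasi-algebraic group `G` over `k` gives
such a functor `K ↦ G(K)`. -/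
structure GrpFunctor (k : Type u) [Field k] where
  /-- the group `G(K)` -/
  obj : AlgClosedExt k → Type u
  [grp : ∀ K, AddCommGroup (obj K)]
  /-- the homomorphism `G(K) → G(K')` of a `k`-embedding `K → K'` -/
  map : ∀ {K K' : AlgClosedExt k}, Emb K K' → obj K → obj K'
  map_add : ∀ {K K' : AlgClosedExt k} (f : Emb K K') (x y : obj K),
    map f (x + y) = map f x + map f y
  map_id : ∀ (K : AlgClosedExt k) (x : obj K), map (Emb.id K) x = x
  map_comp : ∀ {K K' K'' : AlgClosedExt k} (f : Emb K K') (f' : Emb K' K'') (x : obj K),
    map (f'.comp f) x = map f' (map f x)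

attribute [instance] GrpFunctor.grp

/-- A surjective homomorphism `G → H` with finite kernel: a natural homomorphism `G(K) → H(K)`, for all
algebraically closed extension fields `K` of `k`, which is surjective for each `K`, and whose kernel is a
finite group of points defined over `k`: the kernel on `G(k)` is finite and it maps onto the kernel on
`G(K)` for each `K`. -/
structure Isogeny {k : Type u} [Field k] [IsAlgClosed k] (G H : GrpFunctor k) where
  /-- the homomorphism `G(K) → H(K)` -/
  app : ∀ K : AlgClosedExt k, G.obj K → H.obj K
  app_add : ∀ (K : AlgClosedExt k) (x y : G.obj K), app K (x + y) = app K x + app K y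
  natural : ∀ {K K' : AlgClosedExt k} (f : Emb K K') (x : G.obj K),
    app K' (G.map f x) = H.map f (app K x)
  surjective : ∀ K, Function.Surjective (app K)
  finite_ker : Set.Finite {x : G.obj (baseExt k) | app (baseExt k) x = 0}
  ker_const : ∀ (K : AlgClosedExt k) (x : G.obj K), app K x = 0 →
    ∃ y : G.obj (baseExt k), app (baseExt k) y = 0 ∧ G.map (Emb.ofBase K) y = x

/-- Two groups are isogenous if they are linked by a finite chain of surjective homomorphisms with
finite kernel, in either direction. The groups of the chain may be arbitrary functors. -/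
def Isogenous {k : Type u} [Field k] [IsAlgClosed k] (G H : GrpFunctor k) : Prop :=
  Relation.EqvGen (fun G' H' : GrpFunctor k => Nonempty (Isogeny G' H')) G H

/-! ### Dieudonné modules -/

/-- A Dieudonné module of rank `n` over the algebraically closed field `k` of characteristic `p`: the
module `M = W(k) ^ n` with a `σ`-linear operator `F` and a `σ⁻¹`-linear operator `V` such that
`F V = V F = p`. They are given by their matrices `A` and `B`: `F x = A σ(x)` and `V x = B σ⁻¹(x)`; the
equations `F V = p` and `V F = p` mean that `A σ(B) = p` and `σ(B) A = p`. -/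
structure DieudonneModule (p : ℕ) [Fact p.Prime] (k : Type u) [Field k] [CharP k p] [IsAlgClosed k]
    (n : ℕ) where
  /-- the matrix of `F` -/
  A : Matrix (Fin n) (Fin n) (WittVector p k)
  /-- the matrix of `V` -/
  B : Matrix (Fin n) (Fin n) (WittVector p k)
  mul_eq : A * B.map (frobenius : WittVector p k →+* WittVector p k) = (p : WittVector p k) • 1
  mul_eq' : B.map (frobenius : WittVector p k →+* WittVector p k) * A = (p : WittVector p k) • 1

namespace DieudonneModule

variable {p : ℕ} [hp : Fact p.Prime] {k : Type u} [Field k] [CharP k p] [IsAlgClosed k] {n : ℕ}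

/-- The operator `F` of the Dieudonné module `M = W(k) ^ n`: `F x = A σ(x)`. -/
noncomputable def F (M : DieudonneModule p k n) (x : Fin n → WittVector p k) : Fin n → WittVector p k :=
  M.A *ᵥ (fun i => frobenius (x i))

/-- The operator `V` of the Dieudonné module `M = W(k) ^ n`: `V x = B σ⁻¹(x)`. -/
noncomputable def V (M : DieudonneModule p k n) (x : Fin n → WittVector p k) : Fin n → WittVector p k :=
  M.B *ᵥ (fun i => (frobeniusEquiv p k).symm (x i))

/-- The `a`-number of `M`: the length of the `W(k)`-module `M / (F M + V M)`, which is its dimension as a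
vector space over `k` because it is killed by `p`. -/
noncomputable def aNumber (M : DieudonneModule p k n) : ℕ∞ :=
  Module.length (WittVector p k)
    ((Fin n → WittVector p k) ⧸ Submodule.span (WittVector p k) (Set.range M.F ∪ Set.range M.V))

/-- The submodule `N` of `M` is stable under `F`, has rank `m`, and `F ^ b N = p ^ a N`. So
`N ⊗ ℚ` is isoclinic of slope `a / b` and has dimension `m`. -/
def IsIsoclinic (M : DieudonneModule p k n) (N : Submodule (WittVector p k) (Fin n → WittVector p k))
    (a b m : ℕ) : Prop :=
  0 < b ∧ (∀ x ∈ N, M.F x ∈ N) ∧ Module.finrank (WittVector p k) N = m ∧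
    (M.F)^[b] '' N = (fun x => (p : WittVector p k) ^ a • x) '' N

/-- The slopes of the Newton polygon of `M` are the numbers `a i / b i`, with the multiplicities `m i`:
there are linearly independent submodules `N i` of `M`, stable under `F`, such that `N i` has rank `m i`
and `F ^ (b i) (N i) = p ^ (a i) (N i)`, and the sum of the `m i` is the rank of `M`. (By the theorem of
Dieudonné and Manin this determines the isocrystal `M ⊗ ℚ`.) -/
def HasSlopes (M : DieudonneModule p k n) {r : ℕ} (a b m : Fin r → ℕ) : Prop :=
  ∃ N : Fin r → Submodule (WittVector p k) (Fin n → WittVector p k),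
    (∀ i, M.IsIsoclinic (N i) (a i) (b i) (m i)) ∧ iSupIndep N ∧ ∑ i, m i = n

end DieudonneModule

/-! ### The exterior square and the group `U` -/

/-- The exterior square of the free module `R ^ n`, described by the alternating matrices: `x ∧ y`
is the matrix `x yᵀ - y xᵀ`. -/
def altMat (n : ℕ) (R : Type u) [CommRing R] : AddSubgroup (Matrix (Fin n) (Fin n) R) where
  carrier := {Z | Zᵀ = -Z ∧ ∀ i, Z i i = 0}
  zero_mem' := by simp
  add_mem' := by
    rintro Z Z' ⟨h1, h2⟩ ⟨h1', h2'⟩
    refine ⟨by rw [Matrix.transpose_add, h1, h1', neg_add], fun i => ?_⟩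
    rw [Matrix.add_apply, h2, h2', add_zero]
  neg_mem' := by
    rintro Z ⟨h1, h2⟩
    refine ⟨by rw [Matrix.transpose_neg, h1], fun i => ?_⟩
    rw [Matrix.neg_apply, h2, neg_zero]

theorem altMat_map {n : ℕ} {R S : Type u} [CommRing R] [CommRing S] (f : R →+* S)
    {Z : Matrix (Fin n) (Fin n) R} (hZ : Z ∈ altMat n R) : Z.map f ∈ altMat n S := by
  obtain ⟨h1, h2⟩ := hZ
  refine ⟨?_, fun i => by rw [Matrix.map_apply, h2, map_zero]⟩
  ext i j
  have h3 := congrFun (congrFun h1 i) j
  rw [Matrix.transpose_apply, Matrix.neg_apply] at h3
  rw [Matrix.transpose_apply, Matrix.neg_apply, Matrix.map_apply, Matrix.map_apply, h3, map_neg]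

section U

variable {k : Type u} [Field k]

/-- The homomorphism `W(K) → W(K')` of a `k`-embedding `K → K'`. -/
noncomputable def wittMap (p : ℕ) [Fact p.Prime] {K K' : AlgClosedExt k} (f : Emb K K') :
    WittVector p K.carrier →+* WittVector p K'.carrier := WittVector.map (AlgHom.toRingHom f)

/-- The exterior square of the free module `W(K) ^ n`. -/
def ExtSq (p : ℕ) [Fact p.Prime] (n : ℕ) (K : AlgClosedExt k) : Type u := altMat n (WittVector p K.carrier)

noncomputable instance instExtSq (p : ℕ) [Fact p.Prime] (n : ℕ) (K : AlgClosedExt k) :
    AddCommGroup (ExtSq p n K) := AddSubgroup.toAddCommGroup (altMat n (WittVector p K.carrier))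

/-- The alternating matrix which describes an element of the exterior square. -/
def ExtSq.mat {p : ℕ} [Fact p.Prime] {n : ℕ} {K : AlgClosedExt k} (Z : ExtSq p n K) :
    Matrix (Fin n) (Fin n) (WittVector p K.carrier) := Z.1

/-- The homomorphism between the exterior squares of `W(K) ^ n` and `W(K') ^ n` given by a
`k`-embedding `K → K'`. -/
noncomputable def ExtSq.map (p : ℕ) [Fact p.Prime] (n : ℕ) {K K' : AlgClosedExt k} (f : Emb K K')
    (Z : ExtSq p n K) : ExtSq p n K' := ⟨Z.mat.map (wittMap p f), altMat_map (wittMap p f) Z.2⟩

variable {p : ℕ} [hp : Fact p.Prime] [CharP k p] [IsAlgClosed k] {n : ℕ}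

/-- The operator `F` on the exterior square of `M ⊗ W(K)`, where `K` is an algebraically closed extension
field of `k`: `F (x ∧ y) = F x ∧ F y`, that is `F Z = A σ(Z) Aᵀ` for an alternating matrix `Z` over
`W(K)`. -/
noncomputable def frobSq (M : DieudonneModule p k n) (K : AlgClosedExt k)
    (Z : Matrix (Fin n) (Fin n) (WittVector p K.carrier)) : Matrix (Fin n) (Fin n) (WittVector p K.carrier) :=
  M.A.map (WittVector.map (algebraMap k K.carrier)) *
    Z.map (frobenius : WittVector p K.carrier →+* WittVector p K.carrier) *
      (M.A.map (WittVector.map (algebraMap k K.carrier)))ᵀ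

/-- The image of the homomorphism `F / p - 1 : F¹_N(L) → L` on the `K`-valued points, where `L` is the
exterior square of `M` and `F¹_N(L)` consists of the elements `Z` such that `F Z` is divisible by `p`: the
group generated by (and consisting of) all the elements `Y - Z` with `F Z = p Y`. -/
noncomputable def imageU (M : DieudonneModule p k n) (K : AlgClosedExt k) :
    AddSubgroup (ExtSq p n K) :=
  AddSubgroup.closure {X | ∃ Y Z : ExtSq p n K, frobSq M K Z.mat = p • Y.mat ∧ X = Y - Z}

omit [IsAlgClosed k] [CharP k p] in
theorem ExtSq.map_add {K K' : AlgClosedExt k} (f : Emb K K') (Z Z' : ExtSq p n K) :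
    ExtSq.map p n f (Z + Z') = ExtSq.map p n f Z + ExtSq.map p n f Z' := by
  refine Subtype.ext ?_
  exact Matrix.map_add _ (fun a b => RingHom.map_add (wittMap p f) a b) _ _

/-- `ExtSq.map` as a homomorphism of groups. -/
noncomputable def ExtSq.mapHom (p : ℕ) [Fact p.Prime] (n : ℕ) {K K' : AlgClosedExt k}
    (f : Emb K K') : ExtSq p n K →+ ExtSq p n K' :=
  AddMonoidHom.mk' (ExtSq.map p n f) (ExtSq.map_add f)

omit [IsAlgClosed k] [CharP k p] in
theorem wittMap_algebraMap {K K' : AlgClosedExt k} (f : Emb K K') (x : WittVector p k) :
    wittMap p f (WittVector.map (algebraMap k K.carrier) x)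
      = WittVector.map (algebraMap k K'.carrier) x := by
  refine WittVector.ext fun i => ?_
  exact AlgHom.commutes f _

omit [IsAlgClosed k] in
instance charP_ext (K : AlgClosedExt k) : CharP K.carrier p :=
  charP_of_injective_algebraMap (algebraMap k K.carrier).injective p

theorem map_frobenius_comm {R S : Type u} [CommRing R] [CommRing S] [CharP R p] [CharP S p]
    (f : R →+* S) (x : WittVector p R) :
    WittVector.map f (frobenius x) = frobenius (WittVector.map f x) := by
  refine WittVector.ext fun i => ?_
  rw [WittVector.map_coeff, coeff_frobenius_charP, coeff_frobenius_charP, WittVector.map_coeff,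
    map_pow]

omit [IsAlgClosed k] in
theorem wittMap_frobenius {K K' : AlgClosedExt k} (f : Emb K K') (x : WittVector p K.carrier) :
    wittMap p f (frobenius x) = frobenius (wittMap p f x) :=
  map_frobenius_comm (AlgHom.toRingHom f) x

theorem frobSq_map (M : DieudonneModule p k n) {K K' : AlgClosedExt k} (f : Emb K K')
    (Z : Matrix (Fin n) (Fin n) (WittVector p K.carrier)) :
    frobSq M K' (Z.map (wittMap p f)) = (frobSq M K Z).map (wittMap p f) := by
  have h1 : M.A.map (WittVector.map (algebraMap k K'.carrier))
      = (M.A.map (WittVector.map (algebraMap k K.carrier))).map (wittMap p f) := by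
    refine Matrix.ext fun i j => ?_
    rw [Matrix.map_apply, Matrix.map_apply, Matrix.map_apply, wittMap_algebraMap]
  have h2 : (Z.map (wittMap p f)).map
        (frobenius : WittVector p K'.carrier →+* WittVector p K'.carrier)
      = (Z.map (frobenius : WittVector p K.carrier →+* WittVector p K.carrier)).map
        (wittMap p f) := by
    refine Matrix.ext fun i j => ?_
    rw [Matrix.map_apply, Matrix.map_apply, Matrix.map_apply, Matrix.map_apply, wittMap_frobenius]
  rw [frobSq, frobSq, h1, h2, Matrix.map_mul, Matrix.map_mul, Matrix.transpose_map]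

theorem imageU_le (M : DieudonneModule p k n) {K K' : AlgClosedExt k} (f : Emb K K') :
    imageU M K ≤ (imageU M K').comap (ExtSq.mapHom p n f) := by
  rw [imageU, AddSubgroup.closure_le]
  rintro X ⟨Y, Z, h1, h2⟩
  refine AddSubgroup.subset_closure ⟨ExtSq.map p n f Y, ExtSq.map p n f Z, ?_, ?_⟩
  · refine (frobSq_map M f Z.mat).trans ?_
    rw [h1]
    refine Matrix.ext fun i j => ?_
    exact map_nsmul (wittMap p f) _ _
  · rw [h2]
    exact map_sub (ExtSq.mapHom p n f) Y Z

/-- The group `U(K)`: the cokernel of `F / p - 1 : F¹_N(L) → L` on the `K`-valued points. -/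
def pointsU (M : DieudonneModule p k n) (K : AlgClosedExt k) : Type u := ExtSq p n K ⧸ imageU M K

noncomputable instance instPointsU (M : DieudonneModule p k n) (K : AlgClosedExt k) :
    AddCommGroup (pointsU M K) := QuotientAddGroup.Quotient.addCommGroup (imageU M K)

/-- The homomorphism `U(K) → U(K')` of a `k`-embedding `K → K'`. -/
noncomputable def pointsU.map (M : DieudonneModule p k n) {K K' : AlgClosedExt k} (f : Emb K K') :
    pointsU M K → pointsU M K' :=
  QuotientAddGroup.map (imageU M K) (imageU M K') (ExtSq.mapHom p n f) (imageU_le M f)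

theorem pointsU.map_add (M : DieudonneModule p k n) {K K' : AlgClosedExt k} (f : Emb K K')
    (x y : pointsU M K) : pointsU.map M f (x + y) = pointsU.map M f x + pointsU.map M f y :=
  AddMonoidHom.map_add
    (QuotientAddGroup.map (imageU M K) (imageU M K') (ExtSq.mapHom p n f) (imageU_le M f)) x y

theorem pointsU.map_id (M : DieudonneModule p k n) (K : AlgClosedExt k) (x : pointsU M K) :
    pointsU.map M (Emb.id K) x = x := by
  obtain ⟨Z, rfl⟩ := QuotientAddGroup.mk_surjective x
  rfl

theorem pointsU.map_comp (M : DieudonneModule p k n) {K K' K'' : AlgClosedExt k} (f : Emb K K')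
    (f' : Emb K' K'') (x : pointsU M K) :
    pointsU.map M (f'.comp f) x = pointsU.map M f' (pointsU.map M f x) := by
  obtain ⟨Z, rfl⟩ := QuotientAddGroup.mk_surjective x
  rfl

/-- The group `U` of the exterior square `L` of the Dieudonné module `M`: the functor which
maps `K` to the cokernel of `F / p - 1 : F¹_N(L) → L` on the `K`-valued points. -/
noncomputable def groupU (M : DieudonneModule p k n) : GrpFunctor k where
  obj := pointsU M
  map := pointsU.map M
  map_add := pointsU.map_add M
  map_id := pointsU.map_id M
  map_comp := pointsU.map_comp M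

end U

end Pool.Agent.P8H34.UA
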