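import Pool.Agent.P8H34.UA.Defs

/-!
# The examples

The module `M(g)` has the basis `V⁵ x, …, V x, x, F x, …, F⁶ x` and the relation
`F⁶ x = (p² - p⁴) x + g p F³ x + g p² V³ x + V⁶ x`.
-/

set_option autoImplicit false

namespace Pool.Agent.P8H34.UA

open Matrix WittVector

universe u

/-- The matrix of `F`: `F e₁₁ = P e₀ + (P² - P⁴) e₆ + g P e₉ + g P³ e₃`. -/
def matF {R : Type u} [CommRing R] (P g : R) : Matrix (Fin 12) (Fin 12) R := fun i j =>
  if j.val = 11 then
    (if i.val = 0 then P else if i.val = 6 then P ^ 2 - P ^ 4 else if i.val = 9 then g * P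
      else if i.val = 3 then g * P ^ 3 else 0)
  else if i.val = j.val + 1 then (if j.val < 5 then P else 1) else 0

/-- The matrix of `V`: `V e₀ = e₁₁ - (P² - P⁴) e₅ - g P e₈ - g P² e₂`. -/
def matV {R : Type u} [CommRing R] (P g : R) : Matrix (Fin 12) (Fin 12) R := fun i j =>
  if j.val = 0 then
    (if i.val = 11 then 1 else if i.val = 5 then P ^ 4 - P ^ 2 else if i.val = 8 then -(g * P)
      else if i.val = 2 then -(g * P ^ 2) else 0)
  else if j.val = i.val + 1 then (if j.val ≤ 5 then 1 else P) else 0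

theorem matF_map {R S : Type u} [CommRing R] [CommRing S] (f : R →+* S) (P g : R) :
    (matF P g).map f = matF (f P) (f g) := by
  ext i j
  rw [Matrix.map_apply]
  simp only [matF]
  split_ifs <;> simp

theorem matV_map {R S : Type u} [CommRing R] [CommRing S] (f : R →+* S) (P g : R) :
    (matV P g).map f = matV (f P) (f g) := by
  ext i j
  rw [Matrix.map_apply]
  simp only [matV]
  split_ifs <;> simp

theorem matF_mulVec {R : Type u} [CommRing R] (P g : R) (x : Fin 12 → R) :
    matF P g *ᵥ x = ![P * x 11, P * x 0, P * x 1, P * x 2 + g * P ^ 3 * x 11, P * x 3, P * x 4,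
      x 5 + (P ^ 2 - P ^ 4) * x 11, x 6, x 7, x 8 + g * P * x 11, x 9, x 10] := by
  ext i
  fin_cases i <;> simp [Matrix.mulVec, dotProduct, Fin.sum_univ_succ, matF]

theorem matV_mulVec {R : Type u} [CommRing R] (P g : R) (x : Fin 12 → R) :
    matV P g *ᵥ x = ![x 1, x 2, x 3 - g * P ^ 2 * x 0, x 4, x 5, P * x 6 + (P ^ 4 - P ^ 2) * x 0,
      P * x 7, P * x 8, P * x 9 - g * P * x 0, P * x 10, P * x 11, x 0] := by
  ext i
  fin_cases i <;> simp [Matrix.mulVec, dotProduct, Fin.sum_univ_succ, matV] <;> ring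

theorem matF_mul_matV {R : Type u} [CommRing R] (P g : R) :
    matF P g * matV P g = P • (1 : Matrix (Fin 12) (Fin 12) R) := by
  refine Matrix.ext_of_mulVec_single fun i => ?_
  rw [← Matrix.mulVec_mulVec, matF_mulVec, matV_mulVec, Matrix.smul_mulVec, Matrix.one_mulVec]
  generalize (Pi.single i 1 : Fin 12 → R) = x
  ext j
  fin_cases j <;> simp <;> ring

theorem matV_mul_matF {R : Type u} [CommRing R] (P g : R) :
    matV P g * matF P g = P • (1 : Matrix (Fin 12) (Fin 12) R) := by
  refine Matrix.ext_of_mulVec_single fun i => ?_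
  rw [← Matrix.mulVec_mulVec, matF_mulVec, matV_mulVec, Matrix.smul_mulVec, Matrix.one_mulVec]
  generalize (Pi.single i 1 : Fin 12 → R) = x
  ext j
  fin_cases j <;> simp <;> ring

variable {p : ℕ} [hp : Fact p.Prime] {k : Type u} [Field k] [CharP k p] [IsAlgClosed k]

variable (p k) in
/-- The Dieudonné module `M(g)`. -/
noncomputable def exM (g : ℕ) : DieudonneModule p k 12 where
  A := matF (p : WittVector p k) g
  B := matV (p : WittVector p k) g
  mul_eq := by
    rw [matV_map, map_natCast, map_natCast, matF_mul_matV]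
  mul_eq' := by
    rw [matV_map, map_natCast, map_natCast, matV_mul_matF]

theorem exM_A_map (g : ℕ) (K : AlgClosedExt k) :
    (exM p k g).A.map (WittVector.map (algebraMap k K.carrier))
      = matF (p : WittVector p K.carrier) g := by
  rw [exM, matF_map, map_natCast, map_natCast]

end Pool.Agent.P8H34.UA
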