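import Pool.Agent.P8H34.UA.Ex
import Pool.Agent.P8H34.UA.Witt

/-!
# Functionals on the exterior square
-/

set_option autoImplicit false

namespace Pool.Agent.P8H34.UA

open Matrix WittVector

universe u

section field

set_option linter.unusedSectionVars false

variable {p : ℕ} [hp : Fact p.Prime] {K : Type u} [Field K] [CharP K p] [PerfectRing K p]

/-- The power `σⁿ` of the Frobenius of the Witt vectors. -/
noncomputable def sg (n : ℕ) : WittVector p K →+* WittVector p K :=
  (frobenius : WittVector p K →+* WittVector p K) ^ n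

theorem sg_zero (c : WittVector p K) : sg 0 c = c := rfl

theorem sg_frobenius (n : ℕ) (c : WittVector p K) : sg n (frobenius c) = sg (n + 1) c := by
  rw [sg, sg, pow_succ]
  rfl

theorem sg_sg (m n : ℕ) (c : WittVector p K) : sg m (sg n c) = sg (m + n) c := by
  rw [sg, sg, sg, pow_add]
  rfl

theorem frobenius_sg (n : ℕ) (c : WittVector p K) : frobenius (sg n c) = sg (n + 1) c := by
  rw [sg, sg, pow_succ']
  rfl

theorem sg_iterate (n : ℕ) (c : WittVector p K) : sg n c = frobenius^[n] c := by
  rw [sg, RingHom.coe_pow]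

theorem sg_surjective (n : ℕ) : Function.Surjective (sg n : WittVector p K →+* WittVector p K) := by
  rw [sg, RingHom.coe_pow]
  exact (frobenius_bijective p K).surjective.iterate n

theorem hom_mul (f : WittVector p K →+ WittVector p K) (c : WittVector p K) :
    f ((p : WittVector p K) * c) = p * f c := by
  rw [← nsmul_eq_mul, map_nsmul, nsmul_eq_mul]

/-- The component with the index `(i, j)`, `i < j`, of the functional. -/
noncomputable def kap (L : ℕ → WittVector p K →+ WittVector p K) (i j : ℕ) :
    WittVector p K →+ WittVector p K :=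
  (AddMonoidHom.mulLeft ((p : WittVector p K) ^ ((i - 5) + (5 - j)))).comp
    ((L (j - i)).comp (sg (11 - i)).toAddMonoidHom)

theorem kap_apply (L : ℕ → WittVector p K →+ WittVector p K) (i j : ℕ) (c : WittVector p K) :
    kap L i j c = (p : WittVector p K) ^ ((i - 5) + (5 - j)) * L (j - i) (sg (11 - i) c) := rfl

/-- The functional on the matrices given by the components above the diagonal. -/
noncomputable def TT (L : ℕ → WittVector p K →+ WittVector p K) :
    Matrix (Fin 12) (Fin 12) (WittVector p K) →+ WittVector p K :=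
  ∑ q ∈ (Finset.univ : Finset (Fin 12 × Fin 12)).filter (fun q => q.1 < q.2),
    (kap L q.1 q.2).comp (Matrix.entryAddMonoidHom (WittVector p K) q.1 q.2)

theorem TT_apply (L : ℕ → WittVector p K →+ WittVector p K)
    (Z : Matrix (Fin 12) (Fin 12) (WittVector p K)) :
    TT L Z = ∑ q ∈ (Finset.univ : Finset (Fin 12 × Fin 12)).filter (fun q => q.1 < q.2),
      kap L q.1 q.2 (Z q.1 q.2) := by
  rw [TT, AddMonoidHom.finsetSum_apply]
  rfl

theorem TT_single (L : ℕ → WittVector p K →+ WittVector p K) (a b : Fin 12) (c : WittVector p K) :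
    TT L (Matrix.single a b c) = if a < b then kap L a b c else 0 := by
  rw [TT_apply]
  split_ifs with h
  · rw [Finset.sum_eq_single (a, b)]
    · rw [Matrix.single_apply_same]
    · rintro ⟨a', b'⟩ _ h2
      rw [Matrix.single_apply_of_ne, map_zero]
      intro h3
      exact h2 (Prod.ext h3.1.symm h3.2.symm)
    · intro h2
      exact absurd (Finset.mem_filter.2 ⟨Finset.mem_univ (a, b), h⟩) h2
  · refine Finset.sum_eq_zero ?_
    rintro ⟨a', b'⟩ h2
    rw [Matrix.single_apply_of_ne, map_zero]
    intro h3
    refine h ?_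
    rw [h3.1, h3.2]
    exact (Finset.mem_filter.1 h2).2

/-- `F` on the matrices, for the module `M(g)`. -/
noncomputable def FF (g : ℕ) :
    Matrix (Fin 12) (Fin 12) (WittVector p K) →+ Matrix (Fin 12) (Fin 12) (WittVector p K) where
  toFun Z := matF (p : WittVector p K) g
    * Z.map (frobenius : WittVector p K →+* WittVector p K) * (matF (p : WittVector p K) g)ᵀ
  map_zero' := by simp
  map_add' Z Z' := by
    rw [Matrix.map_add _ (map_add _), mul_add, add_mul]

theorem FF_apply (g : ℕ) (Z : Matrix (Fin 12) (Fin 12) (WittVector p K)) :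
    FF g Z = matF (p : WittVector p K) g
      * Z.map (frobenius : WittVector p K →+* WittVector p K) * (matF (p : WittVector p K) g)ᵀ := rfl

theorem FF_transpose (g : ℕ) (Z : Matrix (Fin 12) (Fin 12) (WittVector p K)) :
    FF g Zᵀ = (FF g Z)ᵀ := by
  rw [FF_apply, FF_apply, Matrix.transpose_mul, Matrix.transpose_mul, Matrix.transpose_transpose,
    Matrix.mul_assoc]
  rfl

theorem FF_single (g : ℕ) (i j : Fin 12) (c : WittVector p K) (a b : Fin 12) :
    FF g (Matrix.single i j c) a b = matF (p : WittVector p K) g a i * frobenius c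
      * matF (p : WittVector p K) g b j := by
  rw [FF_apply, Matrix.map_single, Matrix.mul_apply, Finset.sum_eq_single j,
    Matrix.mul_single_apply_same, Matrix.transpose_apply]
  · intro b' _ hb'
    rw [Matrix.mul_single_apply_of_ne _ _ _ _ _ hb', zero_mul]
  · intro h
    exact absurd (Finset.mem_univ _) h

theorem matF_castSucc {R : Type u} [CommRing R] (P g : R) (a : Fin 12) (i : Fin 11) :
    matF P g a i.castSucc = if a = i.succ then (if i.val < 5 then P else 1) else 0 := by
  have h1 : i.val ≠ 11 := by
    have := i.2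
    omega
  have h2 : (a.val = i.val + 1) = (a = i.succ) := by
    rw [Fin.ext_iff, Fin.val_succ]
  simp only [matF, Fin.val_castSucc, h1, if_false, h2]

theorem matF_last {R : Type u} [CommRing R] (P g : R) (a : Fin 12) :
    matF P g a 11 = P * (if a = 0 then 1 else 0) + P * ((P - P ^ 3) * (if a = 6 then 1 else 0))
      + P * (g * (if a = 9 then 1 else 0)) + P * (g * P ^ 2 * (if a = 3 then 1 else 0)) := by
  fin_cases a <;> simp [matF] <;> ring

theorem FF_single_lt (g : ℕ) (i j : Fin 11) (c : WittVector p K) :
    FF g (Matrix.single i.castSucc j.castSucc c) = Matrix.single i.succ j.succ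
      ((if i.val < 5 then (p : WittVector p K) else 1) * (if j.val < 5 then (p : WittVector p K) else 1)
        * frobenius c) := by
  refine Matrix.ext fun a b => ?_
  rw [FF_single, matF_castSucc, matF_castSucc, Matrix.single_apply]
  by_cases ha : a = i.succ
  · by_cases hb : b = j.succ
    · subst ha
      subst hb
      simp only [true_and, if_true]
      ring
    · simp [ha, hb, Ne.symm hb]
  · simp [ha, Ne.symm ha]

theorem FF_single_last (g : ℕ) (i : Fin 11) (c : WittVector p K) :
    FF g (Matrix.single i.castSucc 11 c) = p • (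
      Matrix.single i.succ 0 ((if i.val < 5 then (p : WittVector p K) else 1) * frobenius c)
      + Matrix.single i.succ 6
        ((if i.val < 5 then (p : WittVector p K) else 1) * (((p : WittVector p K) - p ^ 3) * frobenius c))
      + Matrix.single i.succ 9
        ((if i.val < 5 then (p : WittVector p K) else 1) * (g * frobenius c))
      + Matrix.single i.succ 3
        ((if i.val < 5 then (p : WittVector p K) else 1) * (g * p ^ 2 * frobenius c))) := by
  refine Matrix.ext fun a b => ?_
  rw [FF_single, matF_castSucc, matF_last]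
  simp only [Matrix.smul_apply, Matrix.add_apply, Matrix.single_apply, nsmul_eq_mul]
  generalize (if i.val < 5 then (p : WittVector p K) else 1) = α
  by_cases ha : a = i.succ
  · have e1 : ∀ b' : Fin 12, (i.succ = a ∧ b' = b) = (b = b') := by
      intro b'
      rw [eq_iff_iff]
      exact ⟨fun h => h.2.symm, fun h => ⟨ha.symm, h.symm⟩⟩
    rw [if_pos ha]
    simp only [e1]
    split_ifs <;> ring
  · have e1 : ∀ b' : Fin 12, (i.succ = a ∧ b' = b) = False := by
      intro b'
      rw [eq_iff_iff]
      exact ⟨fun h => ha h.1.symm, False.elim⟩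
    rw [if_neg ha]
    simp only [e1, if_false]
    ring

/-- The rows `6, …, 11` of the matrix of `F` modulo `p`. -/
theorem mulVec_mod {R : Type u} [CommRing R] (P g : R) (x : Fin 12 → R) (i : Fin 11)
    (hi : 5 ≤ i.val) : P ∣ (matF P g *ᵥ x) i.succ - x i.castSucc := by
  rw [matF_mulVec]
  fin_cases i
  · exact absurd hi (by norm_num)
  · exact absurd hi (by norm_num)
  · exact absurd hi (by norm_num)
  · exact absurd hi (by norm_num)
  · exact absurd hi (by norm_num)
  · exact ⟨(P - P ^ 3) * x 11, by simp; ring⟩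
  · exact ⟨0, by simp⟩
  · exact ⟨0, by simp⟩
  · exact ⟨g * x 11, by simp; ring⟩
  · exact ⟨0, by simp⟩
  · exact ⟨0, by simp⟩

theorem FF_mod (g : ℕ) (Z : Matrix (Fin 12) (Fin 12) (WittVector p K)) (i j : Fin 11)
    (hi : 5 ≤ i.val) (hj : 5 ≤ j.val) :
    (p : WittVector p K) ∣ FF g Z i.succ j.succ - frobenius (Z i.castSucc j.castSucc) := by
  set A := matF (p : WittVector p K) g
  set S := Z.map (frobenius : WittVector p K →+* WittVector p K)
  have h1 : FF g Z i.succ j.succ = (A *ᵥ (fun y => (A * S) i.succ y)) j.succ := by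
    rw [FF_apply, Matrix.mul_apply, Matrix.mulVec, dotProduct]
    refine Finset.sum_congr rfl fun y _ => ?_
    rw [Matrix.transpose_apply, mul_comm]
  have h2 : (A * S) i.succ j.castSucc = (A *ᵥ (fun y => S y j.castSucc)) i.succ := rfl
  have h3 := mulVec_mod (p : WittVector p K) g (fun y => (A * S) i.succ y) j hj
  have h4 := mulVec_mod (p : WittVector p K) g (fun y => S y j.castSucc) i hi
  have h5 : FF g Z i.succ j.succ - frobenius (Z i.castSucc j.castSucc)
      = ((A *ᵥ (fun y => (A * S) i.succ y)) j.succ - (A * S) i.succ j.castSucc)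
        + ((A *ᵥ (fun y => S y j.castSucc)) i.succ - S i.castSucc j.castSucc) := by
    have h6 : frobenius (Z i.castSucc j.castSucc) = S i.castSucc j.castSucc := rfl
    rw [h1, h2, h6]
    ring
  rw [h5]
  exact dvd_add h3 h4

theorem dvd_of_dvd_frobenius {c : WittVector p K} (h : (p : WittVector p K) ∣ frobenius c) :
    (p : WittVector p K) ∣ c := by
  rw [dvd_iff_coeff_zero, coeff_frobenius_charP] at h
  rw [dvd_iff_coeff_zero]
  exact pow_eq_zero_iff hp.out.ne_zero |>.1 h

theorem kap_shift1 (L : ℕ → WittVector p K →+ WittVector p K) {i j : ℕ} (hi : 5 ≤ i) (hij : i < j)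
    (hj : j < 11) (c : WittVector p K) :
    kap L (i + 1) (j + 1) (frobenius c) = kap L i j (p * c) := by
  rw [kap_apply, kap_apply, sg_frobenius, map_mul, map_natCast, hom_mul]
  have e1 : j + 1 - (i + 1) = j - i := by omega
  have e2 : 11 - (i + 1) + 1 = 11 - i := by omega
  have e3 : i + 1 - 5 + (5 - (j + 1)) = (i - 5 + (5 - j)) + 1 := by omega
  rw [e1, e2, e3]
  ring

theorem kap_shift2 (L : ℕ → WittVector p K →+ WittVector p K) {i j : ℕ} (hi : i < 5) (hj : 5 ≤ j)
    (hj' : j < 11) (c : WittVector p K) :
    kap L (i + 1) (j + 1) (frobenius c) = kap L i j c := by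
  rw [kap_apply, kap_apply, sg_frobenius]
  have e1 : j + 1 - (i + 1) = j - i := by omega
  have e2 : 11 - (i + 1) + 1 = 11 - i := by omega
  have e3 : i + 1 - 5 + (5 - (j + 1)) = i - 5 + (5 - j) := by omega
  rw [e1, e2, e3]

theorem kap_shift3 (L : ℕ → WittVector p K →+ WittVector p K) {i j : ℕ} (hij : i < j) (hj : j < 5)
    (c : WittVector p K) :
    kap L (i + 1) (j + 1) (p * frobenius c) = kap L i j c := by
  rw [kap_apply, kap_apply, map_mul, map_natCast, hom_mul, sg_frobenius]
  have e1 : j + 1 - (i + 1) = j - i := by omega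
  have e2 : 11 - (i + 1) + 1 = 11 - i := by omega
  have e3 : i - 5 + (5 - j) = (i + 1 - 5 + (5 - (j + 1))) + 1 := by omega
  rw [e1, e2, e3]
  ring

/-- The alternating matrix `N - Nᵀ`. -/
noncomputable def asym (N : Matrix (Fin 12) (Fin 12) (WittVector p K)) :
    Matrix (Fin 12) (Fin 12) (WittVector p K) := N - Nᵀ

theorem FF_asym (g : ℕ) (N : Matrix (Fin 12) (Fin 12) (WittVector p K)) :
    FF g (asym N) = asym (FF g N) := by
  rw [asym, map_sub, FF_transpose]
  rfl

theorem TT_asym_lt (L : ℕ → WittVector p K →+ WittVector p K) {a b : Fin 12} (h : a < b)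
    (c : WittVector p K) : TT L (asym (Matrix.single a b c)) = kap L a b c := by
  rw [asym, map_sub, Matrix.transpose_single, TT_single, TT_single, if_pos h, if_neg h.not_gt,
    sub_zero]

theorem TT_asym_gt (L : ℕ → WittVector p K →+ WittVector p K) {a b : Fin 12} (h : b < a)
    (c : WittVector p K) : TT L (asym (Matrix.single a b c)) = - kap L b a c := by
  rw [asym, map_sub, Matrix.transpose_single, TT_single, TT_single, if_pos h, if_neg h.not_gt,
    zero_sub]

theorem TT_asym_eq (L : ℕ → WittVector p K →+ WittVector p K) (a : Fin 12)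
    (c : WittVector p K) : TT L (asym (Matrix.single a a c)) = 0 := by
  rw [asym, map_sub, Matrix.transpose_single, sub_self]

/-- The matrices `Z` such that `F Z = p Y` with `T Y - T Z` divisible by `p³`. -/
def goodSub (g : ℕ) (L : ℕ → WittVector p K →+ WittVector p K) :
    AddSubgroup (Matrix (Fin 12) (Fin 12) (WittVector p K)) where
  carrier := {Z | ∃ Y, FF g Z = p • Y ∧ (p : WittVector p K) ^ 3 ∣ TT L Y - TT L Z}
  zero_mem' := ⟨0, by simp, by simp⟩
  add_mem' := by
    rintro Z Z' ⟨Y, h1, h2⟩ ⟨Y', h1', h2'⟩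
    refine ⟨Y + Y', by rw [map_add, h1, h1', smul_add], ?_⟩
    rw [map_add, map_add, add_sub_add_comm]
    exact dvd_add h2 h2'
  neg_mem' := by
    rintro Z ⟨Y, h1, h2⟩
    refine ⟨-Y, by rw [map_neg, h1, smul_neg], ?_⟩
    rw [map_neg, map_neg, neg_sub_neg, ← neg_sub, dvd_neg]
    exact h2

/-- The matrix `Y` for the last column. -/
noncomputable def lastY (g : ℕ) (i : Fin 11) (c : WittVector p K) :
    Matrix (Fin 12) (Fin 12) (WittVector p K) :=
  Matrix.single i.succ 0 ((if i.val < 5 then (p : WittVector p K) else 1) * frobenius c)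
    + Matrix.single i.succ 6
      ((if i.val < 5 then (p : WittVector p K) else 1) * (((p : WittVector p K) - p ^ 3) * frobenius c))
    + Matrix.single i.succ 9
      ((if i.val < 5 then (p : WittVector p K) else 1) * (g * frobenius c))
    + Matrix.single i.succ 3
      ((if i.val < 5 then (p : WittVector p K) else 1) * (g * p ^ 2 * frobenius c))

/-- The conditions on the functional. -/
def Cond (g : ℕ) (L : ℕ → WittVector p K →+ WittVector p K) : Prop :=
  ∀ (i : Fin 11) (c : WittVector p K),
    (p : WittVector p K) ^ 3 ∣ TT L (asym (lastY g i c)) - kap L i 11 c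

theorem good_last {g : ℕ} {L : ℕ → WittVector p K →+ WittVector p K} (hL : Cond g L) (i : Fin 11)
    (c : WittVector p K) : asym (Matrix.single i.castSucc 11 c) ∈ goodSub g L := by
  refine ⟨asym (lastY g i c), ?_, ?_⟩
  · rw [FF_asym, FF_single_last, asym, Matrix.transpose_smul, ← smul_sub]
    rfl
  · have h : i.castSucc < (11 : Fin 12) := Fin.castSucc_lt_last i
    rw [TT_asym_lt L h]
    exact hL i c

theorem good_lt {g : ℕ} (L : ℕ → WittVector p K →+ WittVector p K) {i j : Fin 11} (hij : i < j)
    {c : WittVector p K} (hc : 5 ≤ i.val → (p : WittVector p K) ∣ c) :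
    asym (Matrix.single i.castSucc j.castSucc c) ∈ goodSub g L := by
  have hij' : i.val < j.val := hij
  have hj := j.2
  have h1 : i.castSucc < j.castSucc := hij
  have h2 : i.succ < j.succ := Fin.succ_lt_succ_iff.2 hij
  by_cases hi5 : 5 ≤ i.val
  · obtain ⟨c', rfl⟩ := hc hi5
    refine ⟨asym (Matrix.single i.succ j.succ (frobenius c')), ?_, ?_⟩
    · rw [FF_asym, FF_single_lt, if_neg (by omega), if_neg (by omega), asym, asym, smul_sub,
        Matrix.transpose_single, Matrix.transpose_single, Matrix.smul_single, Matrix.smul_single,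
        map_mul, map_natCast, nsmul_eq_mul, one_mul, one_mul]
    · rw [TT_asym_lt L h1, TT_asym_lt L h2, Fin.val_succ, Fin.val_succ, Fin.val_castSucc,
        Fin.val_castSucc, kap_shift1 L hi5 hij' (by omega), sub_self]
      exact dvd_zero _
  · push Not at hi5
    by_cases hj5 : 5 ≤ j.val
    · refine ⟨asym (Matrix.single i.succ j.succ (frobenius c)), ?_, ?_⟩
      · rw [FF_asym, FF_single_lt, if_pos (by omega), if_neg (by omega), asym, asym, smul_sub,
          Matrix.transpose_single, Matrix.transpose_single, Matrix.smul_single, Matrix.smul_single,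
          nsmul_eq_mul, mul_one]
      · rw [TT_asym_lt L h1, TT_asym_lt L h2, Fin.val_succ, Fin.val_succ, Fin.val_castSucc,
          Fin.val_castSucc, kap_shift2 L hi5 hj5 (by omega), sub_self]
        exact dvd_zero _
    · push Not at hj5
      refine ⟨asym (Matrix.single i.succ j.succ (p * frobenius c)), ?_, ?_⟩
      · rw [FF_asym, FF_single_lt, if_pos (by omega), if_pos (by omega), asym, asym, smul_sub,
          Matrix.transpose_single, Matrix.transpose_single, Matrix.smul_single, Matrix.smul_single,
          nsmul_eq_mul, mul_assoc]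
      · rw [TT_asym_lt L h1, TT_asym_lt L h2, Fin.val_succ, Fin.val_succ, Fin.val_castSucc,
          Fin.val_castSucc, kap_shift3 L hij' hj5, sub_self]
        exact dvd_zero _

/-- An alternating matrix is the sum of its elementary parts. -/
theorem alt_decomp {Z : Matrix (Fin 12) (Fin 12) (WittVector p K)}
    (hZ : Z ∈ altMat 12 (WittVector p K)) :
    Z = ∑ q ∈ (Finset.univ : Finset (Fin 12 × Fin 12)).filter (fun q => q.1 < q.2),
      asym (Matrix.single q.1 q.2 (Z q.1 q.2)) := by
  obtain ⟨h1, h2⟩ := hZ
  have h3 : ∀ a b, Z b a = - Z a b := fun a b => congrFun (congrFun h1 a) b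
  refine Matrix.ext fun a b => ?_
  rw [Matrix.sum_apply]
  simp only [asym, Matrix.sub_apply, Matrix.transpose_apply]
  rcases lt_trichotomy a b with h | h | h
  · rw [Finset.sum_eq_single (a, b)]
    · simp only [Matrix.single_apply_same]
      rw [Matrix.single_apply_of_ne, sub_zero]
      exact fun h4 => h.ne h4.1
    · rintro ⟨a', b'⟩ h4 h5
      have h6 : a' < b' := (Finset.mem_filter.1 h4).2
      simp only
      rw [Matrix.single_apply_of_ne, Matrix.single_apply_of_ne, sub_zero]
      · rintro ⟨rfl, rfl⟩
        exact absurd h h6.not_gt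
      · rintro ⟨rfl, rfl⟩
        exact h5 rfl
    · intro h4
      exact absurd (Finset.mem_filter.2 ⟨Finset.mem_univ (a, b), h⟩) h4
  · subst h
    rw [h2]
    symm
    refine Finset.sum_eq_zero ?_
    rintro ⟨a', b'⟩ h4
    exact sub_self _
  · rw [Finset.sum_eq_single (b, a)]
    · simp only [Matrix.single_apply_same]
      rw [Matrix.single_apply_of_ne, zero_sub, h3 b a]
      exact fun h4 => h.ne h4.1
    · rintro ⟨a', b'⟩ h4 h5
      have h6 : a' < b' := (Finset.mem_filter.1 h4).2
      simp only
      rw [Matrix.single_apply_of_ne, Matrix.single_apply_of_ne, sub_zero]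
      · rintro ⟨rfl, rfl⟩
        exact h5 rfl
      · rintro ⟨rfl, rfl⟩
        exact absurd h h6.not_gt
    · intro h4
      exact absurd (Finset.mem_filter.2 ⟨Finset.mem_univ (b, a), h⟩) h4

theorem smul_cancel {Y Y' : Matrix (Fin 12) (Fin 12) (WittVector p K)} (h : p • Y = p • Y') :
    Y = Y' := by
  refine Matrix.ext fun a b => ?_
  have h1 := congrFun (congrFun h a) b
  rw [Matrix.smul_apply, Matrix.smul_apply, nsmul_eq_mul, nsmul_eq_mul] at h1
  exact mul_left_cancel₀ (WittVector.p_nonzero p K) h1

set_option maxRecDepth 20000 in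
theorem TT_kill {g : ℕ} {L : ℕ → WittVector p K →+ WittVector p K} (hL : Cond g L)
    {Y Z : Matrix (Fin 12) (Fin 12) (WittVector p K)} (hZ : Z ∈ altMat 12 (WittVector p K))
    (h : FF g Z = p • Y) : (p : WittVector p K) ^ 3 ∣ TT L Y - TT L Z := by
  have h1 : ∑ q ∈ (Finset.univ : Finset (Fin 12 × Fin 12)).filter (fun q => q.1 < q.2),
      asym (Matrix.single q.1 q.2 (Z q.1 q.2)) ∈ goodSub g L := by
    refine Finset.sum_induction _ (fun N => N ∈ goodSub g L)
      (fun a b ha hb => (goodSub g L).add_mem' ha hb) (goodSub g L).zero_mem' ?_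
    rintro ⟨i, j⟩ hq
    have hij : i < j := (Finset.mem_filter.1 hq).2
    simp only
    obtain ⟨i, rfl⟩ : ∃ i' : Fin 11, i = i'.castSucc :=
      ⟨i.castPred (ne_of_lt (lt_of_lt_of_le hij (Fin.le_last j))), by simp⟩
    induction j using Fin.lastCases with
    | last => exact good_last hL i _
    | cast j =>
      refine good_lt L (Fin.castSucc_lt_castSucc_iff.1 hij) fun hi => ?_
      have hj : 5 ≤ j.val := le_trans hi (le_of_lt hij)
      have h2 := FF_mod g Z i j hi hj
      rw [h, Matrix.smul_apply, nsmul_eq_mul] at h2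
      obtain ⟨t, ht⟩ := h2
      exact dvd_of_dvd_frobenius ⟨Y i.succ j.succ - t, by linear_combination -ht⟩
  rw [← alt_decomp hZ] at h1
  obtain ⟨Y', h2, h3⟩ := h1
  rw [h] at h2
  rw [smul_cancel h2]
  exact h3

end field

end Pool.Agent.P8H34.UA
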