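import Pool.Agent.P8H34.UA.Defs

/-!
# An invariant of isogeny

`Small K₀`: any two elements of the extension field `K₀` are algebraically dependent over `k`.
`Inv q G`: for each point `u` of `G` over each `K` the multiple `q u` is defined over a subfield of
transcendence degree at most one. This is invariant under isogeny.
-/

set_option autoImplicit false

namespace Pool.Agent.P8H34.UA

universe u

variable {k : Type u} [Field k]

/-- The map `G(K) → G(K')` as a homomorphism. -/
def GrpFunctor.mapHom (G : GrpFunctor k) {K K' : AlgClosedExt k} (f : Emb K K') :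
    G.obj K →+ G.obj K' := AddMonoidHom.mk' (G.map f) (G.map_add f)

theorem GrpFunctor.map_nsmul (G : GrpFunctor k) {K K' : AlgClosedExt k} (f : Emb K K') (q : ℕ)
    (x : G.obj K) : G.map f (q • x) = q • G.map f x := _root_.map_nsmul (G.mapHom f) q x

/-- The map `G(K) → H(K)` as a homomorphism. -/
def Isogeny.appHom [IsAlgClosed k] {G H : GrpFunctor k} (φ : Isogeny G H) (K : AlgClosedExt k) :
    G.obj K →+ H.obj K := AddMonoidHom.mk' (φ.app K) (φ.app_add K)

theorem Isogeny.app_nsmul [IsAlgClosed k] {G H : GrpFunctor k} (φ : Isogeny G H)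
    (K : AlgClosedExt k) (q : ℕ) (x : G.obj K) : φ.app K (q • x) = q • φ.app K x :=
  map_nsmul (φ.appHom K) q x

theorem Isogeny.app_sub [IsAlgClosed k] {G H : GrpFunctor k} (φ : Isogeny G H)
    (K : AlgClosedExt k) (x y : G.obj K) : φ.app K (x - y) = φ.app K x - φ.app K y :=
  map_sub (φ.appHom K) x y

/-- Any two elements of `K₀` are algebraically dependent over `k`. -/
def Small (K₀ : AlgClosedExt k) : Prop :=
  ∀ a b : K₀.carrier, ¬ AlgebraicIndependent k ![a, b]

/-- Each element `q u` with `u ∈ G(K)` comes from a subfield of transcendence degree `≤ 1`. -/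
def Inv (q : ℕ) (G : GrpFunctor k) : Prop :=
  ∀ (K : AlgClosedExt k) (x : G.obj K), ∃ (K₀ : AlgClosedExt k) (f : Emb K₀ K)
    (w : G.obj K₀), Small K₀ ∧ G.map f w = q • x

theorem inv_iff [IsAlgClosed k] (q : ℕ) {G H : GrpFunctor k} (φ : Isogeny G H) :
    Inv q G ↔ Inv q H := by
  constructor
  · intro h K x'
    obtain ⟨x, rfl⟩ := φ.surjective K x'
    obtain ⟨K₀, f, w, h1, h2⟩ := h K x
    exact ⟨K₀, f, φ.app K₀ w, h1, by rw [← φ.natural, h2, φ.app_nsmul]⟩
  · intro h K x
    obtain ⟨K₀, f, w', h1, h2⟩ := h K (φ.app K x)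
    obtain ⟨w, rfl⟩ := φ.surjective K₀ w'
    have h3 : φ.app K (q • x - G.map f w) = 0 := by
      rw [φ.app_sub, φ.app_nsmul, φ.natural, h2, sub_self]
    obtain ⟨y, -, hy⟩ := φ.ker_const K _ h3
    refine ⟨K₀, f, w + G.map (Emb.ofBase K₀) y, h1, ?_⟩
    have h4 : G.map f (G.map (Emb.ofBase K₀) y) = G.map (Emb.ofBase K) y := by
      rw [← G.map_comp]
      have h5 : f.comp (Emb.ofBase K₀) = Emb.ofBase K :=
        Subsingleton.elim (α := k →ₐ[k] K.carrier) _ _
      rw [h5]
    rw [G.map_add, h4, hy]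
    abel

theorem inv_iff_of_isogenous [IsAlgClosed k] (q : ℕ) {G H : GrpFunctor k} (h : Isogenous G H) :
    Inv q G ↔ Inv q H := by
  induction h with
  | rel x y h => exact inv_iff q h.some
  | refl x => rfl
  | symm x y _ h => exact h.symm
  | trans x y z _ _ h1 h2 => exact h1.trans h2

end Pool.Agent.P8H34.UA
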