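import Pool.Agent.P8H34.UA.Func

/-!
# Two functionals for the module `M(1)`
-/

set_option autoImplicit false

namespace Pool.Agent.P8H34.UA

open Matrix WittVector

universe u

section field

set_option linter.unusedSimpArgs false

set_option linter.unusedSectionVars false

variable {p : ℕ} [hp : Fact p.Prime] {K : Type u} [Field K] [CharP K p] [PerfectRing K p]

/-- The component of the functional for an elementary matrix. -/
noncomputable def kk (L : ℕ → WittVector p K →+ WittVector p K) (a b : ℕ) (c : WittVector p K) :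
    WittVector p K :=
  if a < b then kap L a b c else if b < a then - kap L b a c else 0

theorem TT_asym (L : ℕ → WittVector p K →+ WittVector p K) (a b : Fin 12) (c : WittVector p K) :
    TT L (asym (Matrix.single a b c)) = kk L a.val b.val c := by
  rw [kk]
  rcases lt_trichotomy a b with h | h | h
  · rw [if_pos (show a.val < b.val from h), TT_asym_lt L h]
  · rw [h, if_neg (lt_irrefl _), if_neg (lt_irrefl _), TT_asym_eq]
  · rw [if_neg (not_lt.2 (le_of_lt (show b.val < a.val from h))), if_pos (show b.val < a.val from h),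
      TT_asym_gt L h]

theorem asym_add (N N' : Matrix (Fin 12) (Fin 12) (WittVector p K)) :
    asym (N + N') = asym N + asym N' := by
  rw [asym, asym, asym, Matrix.transpose_add]
  abel

theorem TT_lastY (L : ℕ → WittVector p K →+ WittVector p K) (g : ℕ) (i : Fin 11)
    (c : WittVector p K) : TT L (asym (lastY g i c)) =
      kk L (i.val + 1) 0 ((if i.val < 5 then (p : WittVector p K) else 1) * frobenius c)
      + kk L (i.val + 1) 6
        ((if i.val < 5 then (p : WittVector p K) else 1) * (((p : WittVector p K) - p ^ 3) * frobenius c))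
      + kk L (i.val + 1) 9 ((if i.val < 5 then (p : WittVector p K) else 1) * (g * frobenius c))
      + kk L (i.val + 1) 3
        ((if i.val < 5 then (p : WittVector p K) else 1) * (g * p ^ 2 * frobenius c)) := by
  rw [lastY, asym_add, asym_add, asym_add, map_add, map_add, map_add, TT_asym, TT_asym, TT_asym,
    TT_asym]
  rfl

/-- The first functional. -/
noncomputable def Lam1 (n : ℕ) : WittVector p K →+ WittVector p K :=
  AddMonoidHom.mk' (fun c => if n = 1 then sg 6 c else if n = 4 then -(p * (sg 6 c + c))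
    else if n = 7 then -(p ^ 2 * c) else 0) (by
      intro a b
      simp only [map_add]
      split_ifs <;> ring)

theorem Lam1_apply (n : ℕ) (c : WittVector p K) : Lam1 n c = if n = 1 then sg 6 c
    else if n = 4 then -(p * (sg 6 c + c)) else if n = 7 then -(p ^ 2 * c) else 0 := rfl

/-- The second functional. -/
noncomputable def Lam2 (n : ℕ) : WittVector p K →+ WittVector p K :=
  AddMonoidHom.mk' (fun c => if n = 2 then sg 13 c
    else if n = 4 then p * (2 * sg 6 c + c - sg 12 c - sg 18 c)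
    else if n = 5 then -(p * (sg 13 c + sg 7 c))
    else if n = 7 then p ^ 2 * (2 * sg 6 c + c) else if n = 8 then -(p ^ 2 * sg 7 c) else 0) (by
      intro a b
      simp only [map_add]
      split_ifs <;> ring)

theorem Lam2_apply (n : ℕ) (c : WittVector p K) : Lam2 n c = if n = 2 then sg 13 c
    else if n = 4 then p * (2 * sg 6 c + c - sg 12 c - sg 18 c)
    else if n = 5 then -(p * (sg 13 c + sg 7 c))
    else if n = 7 then p ^ 2 * (2 * sg 6 c + c) else if n = 8 then -(p ^ 2 * sg 7 c) else 0 := rfl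

theorem cond_Lam1 : Cond 1 (Lam1 : ℕ → WittVector p K →+ WittVector p K) := by
  intro i c
  rw [TT_lastY]
  fin_cases i
  · refine ⟨(-1) * p ^ 2 * sg 18 c, ?_⟩
    simp [kk, kap_apply, Lam1_apply, sg_frobenius, sg_sg, sg_zero]
    try ring
  · refine ⟨(-2) * sg 10 c + (-1) * sg 16 c + (1) * p ^ 2 * sg 10 c + (2) * p ^ 2 * sg 16 c, ?_⟩
    simp [kk, kap_apply, Lam1_apply, sg_frobenius, sg_sg, sg_zero]
    try ring
  · refine ⟨0, ?_⟩
    simp [kk, kap_apply, Lam1_apply, sg_frobenius, sg_sg, sg_zero]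
    try ring
  · refine ⟨(1) * sg 12 c + (1) * sg 18 c + (-1) * p ^ 1 * sg 15 c, ?_⟩
    simp [kk, kap_apply, Lam1_apply, sg_frobenius, sg_sg, sg_zero]
    try ring
  · refine ⟨(-1) * p ^ 1 * sg 13 c, ?_⟩
    simp [kk, kap_apply, Lam1_apply, sg_frobenius, sg_sg, sg_zero]
    try ring
  · refine ⟨0, ?_⟩
    simp [kk, kap_apply, Lam1_apply, sg_frobenius, sg_sg, sg_zero]
    try ring
  · refine ⟨(1) * sg 9 c + (1) * sg 15 c + (1) * p ^ 1 * sg 12 c, ?_⟩
    simp [kk, kap_apply, Lam1_apply, sg_frobenius, sg_sg, sg_zero]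
    try ring
  · refine ⟨(1) * sg 4 c + (2) * sg 10 c, ?_⟩
    simp [kk, kap_apply, Lam1_apply, sg_frobenius, sg_sg, sg_zero]
    try ring
  · refine ⟨0, ?_⟩
    simp [kk, kap_apply, Lam1_apply, sg_frobenius, sg_sg, sg_zero]
    try ring
  · refine ⟨(1) * sg 6 c + (1) * sg 12 c + (-1) * p ^ 2 * sg 6 c + (-1) * p ^ 2 * sg 12 c, ?_⟩
    simp [kk, kap_apply, Lam1_apply, sg_frobenius, sg_sg, sg_zero]
    try ring
  · refine ⟨(-1) * p ^ 2 * sg 7 c, ?_⟩
    simp [kk, kap_apply, Lam1_apply, sg_frobenius, sg_sg, sg_zero]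
    try ring

theorem cond_Lam2 : Cond 1 (Lam2 : ℕ → WittVector p K →+ WittVector p K) := by
  intro i c
  rw [TT_lastY]
  fin_cases i
  · refine ⟨(-2) * sg 18 c + (-1) * sg 24 c + (1) * p ^ 2 * sg 18 c + (2) * p ^ 2 * sg 24 c, ?_⟩
    simp [kk, kap_apply, Lam2_apply, sg_frobenius, sg_sg, sg_zero]
    try ring
  · refine ⟨(2) * sg 10 c + (4) * sg 16 c + (-1) * sg 22 c + (-1) * sg 28 c + (-1) * p ^ 1 * sg 25 c + (-1) * p ^ 2 * sg 10 c + (-2) * p ^ 2 * sg 16 c + (1) * p ^ 2 * sg 22 c + (1) * p ^ 2 * sg 28 c, ?_⟩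
    simp [kk, kap_apply, Lam2_apply, sg_frobenius, sg_sg, sg_zero]
    try ring
  · refine ⟨0, ?_⟩
    simp [kk, kap_apply, Lam2_apply, sg_frobenius, sg_sg, sg_zero]
    try ring
  · refine ⟨(-1) * sg 12 c + (-2) * sg 18 c + (1) * sg 24 c + (1) * sg 30 c + (-1) * p ^ 1 * sg 21 c, ?_⟩
    simp [kk, kap_apply, Lam2_apply, sg_frobenius, sg_sg, sg_zero]
    try ring
  · refine ⟨(-1) * sg 22 c, ?_⟩
    simp [kk, kap_apply, Lam2_apply, sg_frobenius, sg_sg, sg_zero]
    try ring
  · refine ⟨0, ?_⟩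
    simp [kk, kap_apply, Lam2_apply, sg_frobenius, sg_sg, sg_zero]
    try ring
  · refine ⟨(-1) * sg 9 c + (-2) * sg 15 c + (1) * sg 21 c + (1) * sg 27 c, ?_⟩
    simp [kk, kap_apply, Lam2_apply, sg_frobenius, sg_sg, sg_zero]
    try ring
  · refine ⟨(-1) * sg 4 c + (-2) * sg 10 c + (2) * sg 16 c + (2) * sg 22 c + (1) * p ^ 1 * sg 19 c, ?_⟩
    simp [kk, kap_apply, Lam2_apply, sg_frobenius, sg_sg, sg_zero]
    try ring
  · refine ⟨0, ?_⟩
    simp [kk, kap_apply, Lam2_apply, sg_frobenius, sg_sg, sg_zero]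
    try ring
  · refine ⟨(-1) * sg 6 c + (-2) * sg 12 c + (1) * sg 18 c + (1) * sg 24 c + (-1) * p ^ 1 * sg 9 c + (-3) * p ^ 1 * sg 15 c + (1) * p ^ 2 * sg 6 c + (2) * p ^ 2 * sg 12 c + (-1) * p ^ 2 * sg 18 c + (-1) * p ^ 2 * sg 24 c, ?_⟩
    simp [kk, kap_apply, Lam2_apply, sg_frobenius, sg_sg, sg_zero]
    try ring
  · refine ⟨(1) * sg 13 c + (1) * sg 19 c + (-1) * p ^ 2 * sg 13 c + (-1) * p ^ 2 * sg 19 c, ?_⟩
    simp [kk, kap_apply, Lam2_apply, sg_frobenius, sg_sg, sg_zero]
    try ring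

end field

end Pool.Agent.P8H34.UA
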