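import Pool.Agent.P8H34.UA.Lam
import Pool.Agent.P8H34.UA.Inv

/-!
# The group `U` of the module `M(1)` does not satisfy `Inv`
-/

set_option autoImplicit false

namespace Pool.Agent.P8H34.UA

set_option linter.unusedSectionVars false

open Matrix WittVector

universe u

variable {p : ℕ} [hp : Fact p.Prime] {k : Type u} [Field k] [CharP k p] [IsAlgClosed k]

theorem frobSq_exM (g : ℕ) (K : AlgClosedExt k)
    (Z : Matrix (Fin 12) (Fin 12) (WittVector p K.carrier)) : frobSq (exM p k g) K Z = FF g Z := by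
  rw [frobSq, exM_A_map, FF_apply]

theorem asym_mem {K : Type u} [Field K] [CharP K p] [PerfectRing K p]
    (N : Matrix (Fin 12) (Fin 12) (WittVector p K)) : asym N ∈ altMat 12 (WittVector p K) := by
  refine ⟨?_, fun i => ?_⟩
  · rw [asym, Matrix.transpose_sub, Matrix.transpose_transpose, neg_sub]
  · rw [asym, Matrix.sub_apply, Matrix.transpose_apply, sub_self]

/-- The elements of `imageU`. -/
theorem mem_imageU {n : ℕ} (M : DieudonneModule p k n) (K : AlgClosedExt k) (X : ExtSq p n K) :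
    X ∈ imageU M K ↔ ∃ Y Z : ExtSq p n K, frobSq M K Z.mat = p • Y.mat ∧ X = Y - Z := by
  constructor
  · intro hX
    induction hX using AddSubgroup.closure_induction with
    | mem X hX => exact hX
    | zero =>
      refine ⟨0, 0, ?_, by rw [sub_zero]⟩
      have h1 : (0 : ExtSq p n K).mat = 0 := rfl
      rw [h1, frobSq, smul_zero]
      simp
    | add X X' _ _ h h' =>
      obtain ⟨Y, Z, h1, h2⟩ := h
      obtain ⟨Y', Z', h1', h2'⟩ := h'
      refine ⟨Y + Y', Z + Z', ?_, by rw [h2, h2']; abel⟩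
      have e1 : (Z + Z').mat = Z.mat + Z'.mat := rfl
      have e2 : (Y + Y').mat = Y.mat + Y'.mat := rfl
      rw [frobSq] at h1 h1' ⊢
      rw [e1, e2, Matrix.map_add _ (map_add _), mul_add, add_mul, smul_add, h1, h1']
    | neg X _ h =>
      obtain ⟨Y, Z, h1, h2⟩ := h
      refine ⟨-Y, -Z, ?_, by rw [h2]; abel⟩
      have e1 : (-Z).mat = -Z.mat := rfl
      have e2 : (-Y).mat = -Y.mat := rfl
      have h3 : (-Z.mat).map (frobenius : WittVector p K.carrier →+* WittVector p K.carrier)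
          = - Z.mat.map (frobenius : WittVector p K.carrier →+* WittVector p K.carrier) := by
        refine Matrix.ext fun i j => ?_
        exact map_neg (frobenius : WittVector p K.carrier →+* WittVector p K.carrier) (Z.mat i j)
      rw [frobSq] at h1 ⊢
      rw [e1, e2, h3, mul_neg, neg_mul, h1, smul_neg]
  · intro hX
    exact AddSubgroup.subset_closure hX

section natural

variable {K K' : AlgClosedExt k} (f : Emb K K')

theorem wf_sg (n : ℕ) (c : WittVector p K.carrier) :
    wittMap p f (sg n c) = sg n (wittMap p f c) := by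
  rw [sg_iterate, sg_iterate]
  induction n with
  | zero => rfl
  | succ n ih =>
    rw [Function.iterate_succ_apply', Function.iterate_succ_apply', ← ih]
    exact wittMap_frobenius f _

theorem wf_TT {L : ℕ → WittVector p K.carrier →+ WittVector p K.carrier}
    {L' : ℕ → WittVector p K'.carrier →+ WittVector p K'.carrier}
    (hL : ∀ n c, wittMap p f (L n c) = L' n (wittMap p f c))
    (Z : Matrix (Fin 12) (Fin 12) (WittVector p K.carrier)) :
    TT L' (Z.map (wittMap p f)) = wittMap p f (TT L Z) := by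
  rw [TT_apply, TT_apply, map_sum]
  refine Finset.sum_congr rfl fun q _ => ?_
  rw [kap_apply, kap_apply, map_mul, map_pow, map_natCast, hL, wf_sg, Matrix.map_apply]

theorem wf_Lam1 (n : ℕ) (c : WittVector p K.carrier) :
    wittMap p f (Lam1 n c) = Lam1 n (wittMap p f c) := by
  rw [Lam1_apply, Lam1_apply]
  split_ifs <;> simp [wf_sg]

theorem wf_Lam2 (n : ℕ) (c : WittVector p K.carrier) :
    wittMap p f (Lam2 n c) = Lam2 n (wittMap p f c) := by
  rw [Lam2_apply, Lam2_apply]
  have h2 : (wittMap p f) 2 = 2 := map_ofNat (wittMap p f) 2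
  split_ifs <;> simp [wf_sg, h2]

end natural

theorem coeff_two {K : Type u} [Field K] [CharP K p] [PerfectRing K p]
    {x : WittVector p K} {s : K} (h : (p : WittVector p K) ^ 3 ∣ x - p ^ 2 * teichmuller p s) :
    x.coeff 2 = s ^ p ^ 2 := by
  rw [dvd_pow_iff, ← le_coeff_eq_iff_le_sub_coeff_eq_zero] at h
  rw [h 2 (by norm_num), mul_comm]
  have h1 := mul_pow_charP_coeff_succ (p := p) (teichmuller p s) (m := 0) (n := 2)
  rw [zero_add, teichmuller_coeff_zero] at h1
  exact h1

theorem sg_teichmuller {K : Type u} [Field K] [CharP K p] [PerfectRing K p] (n : ℕ) (s : K) :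
    sg n (teichmuller p s) = teichmuller p (s ^ p ^ n) := by
  rw [sg_iterate]
  ext i
  rw [coeff_iterate_frobenius]
  rcases Nat.eq_zero_or_pos i with h | h
  · rw [h, teichmuller_coeff_zero, teichmuller_coeff_zero]
  · rw [teichmuller_coeff_pos _ _ _ h, teichmuller_coeff_pos _ _ _ h, zero_pow]
    exact (pow_pos hp.out.pos n).ne'

/-- The element of `U(K)` used in the proof. -/
noncomputable def zel {K : Type u} [Field K] [CharP K p] [PerfectRing K p] (s₁ s₂ : K) :
    Matrix (Fin 12) (Fin 12) (WittVector p K) :=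
  asym (Matrix.single 5 6 (teichmuller p s₁)) + asym (Matrix.single 5 7 (teichmuller p s₂))

theorem TT1_zel {K : Type u} [Field K] [CharP K p] [PerfectRing K p] (s₁ s₂ : K) :
    TT (Lam1 (p := p)) (zel s₁ s₂) = teichmuller p (s₁ ^ p ^ 12) := by
  rw [zel, map_add, TT_asym, TT_asym]
  simp only [kk, kap_apply, Lam1_apply]
  norm_num
  rw [sg_sg, sg_teichmuller, map_pow]

theorem TT2_zel {K : Type u} [Field K] [CharP K p] [PerfectRing K p] (s₁ s₂ : K) :
    TT (Lam2 (p := p)) (zel s₁ s₂) = teichmuller p (s₂ ^ p ^ 19) := by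
  rw [zel, map_add, TT_asym, TT_asym]
  simp only [kk, kap_apply, Lam2_apply]
  norm_num
  rw [sg_sg, sg_teichmuller, map_pow]

set_option maxRecDepth 20000 in
theorem not_inv : ¬ Inv (p ^ 2) (groupU (exM p k 1)) := by
  intro h
  let R := MvPolynomial (Fin 2) k
  let E := AlgebraicClosure (FractionRing R)
  let K : AlgClosedExt k := { carrier := E }
  have hinj : Function.Injective (algebraMap R E) :=
    (FaithfulSMul.algebraMap_injective (FractionRing R) E).comp
      (IsFractionRing.injective R (FractionRing R))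
  let φ : R →ₐ[k] E := IsScalarTower.toAlgHom k R E
  have hind : AlgebraicIndependent k (fun i : Fin 2 => φ (MvPolynomial.X i)) := by
    have h1 := MvPolynomial.algebraicIndependent_X (Fin 2) k
    exact h1.map' (f := φ) hinj
  obtain ⟨s₁, hs₁⟩ := IsAlgClosed.exists_pow_nat_eq (φ (MvPolynomial.X 0) : E)
    (pow_pos hp.out.pos (12 + 2) : 0 < p ^ (12 + 2))
  obtain ⟨s₂, hs₂⟩ := IsAlgClosed.exists_pow_nat_eq (φ (MvPolynomial.X 1) : E)
    (pow_pos hp.out.pos (19 + 2) : 0 < p ^ (19 + 2))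
  let z : ExtSq p 12 K := ⟨zel s₁ s₂, by
    rw [zel]
    exact AddSubgroup.add_mem _ (asym_mem _) (asym_mem _)⟩
  obtain ⟨K₀, f, w, hK₀, hw⟩ := h K (QuotientAddGroup.mk z : ExtSq p 12 K ⧸ imageU (exM p k 1) K)
  obtain ⟨Z₀, hZ₀⟩ : ∃ Z₀ : ExtSq p 12 K₀,
      (QuotientAddGroup.mk Z₀ : ExtSq p 12 K₀ ⧸ imageU (exM p k 1) K₀) = w :=
    QuotientAddGroup.mk_surjective w
  have hw' : (QuotientAddGroup.mk (ExtSq.mapHom p 12 f Z₀) : ExtSq p 12 K ⧸ imageU (exM p k 1) K)
      = QuotientAddGroup.mk (p ^ 2 • z) := by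
    have e1 : (groupU (exM p k 1)).map f w = (QuotientAddGroup.mk (ExtSq.mapHom p 12 f Z₀) :
      ExtSq p 12 K ⧸ imageU (exM p k 1) K) := by rw [← hZ₀]; rfl
    rw [← e1]
    exact hw
  have h1 : (ExtSq.mapHom p 12 f Z₀ - p ^ 2 • z) ∈ imageU (exM p k 1) K :=
    QuotientAddGroup.eq_iff_sub_mem.1 hw'
  rw [mem_imageU] at h1
  obtain ⟨Y, Z, h2, h3⟩ := h1
  rw [frobSq_exM] at h2
  have h3' : Z₀.mat.map (wittMap p f) - p ^ 2 • zel s₁ s₂ = Y.mat - Z.mat :=
    congrArg ExtSq.mat h3
  have key : ∀ (L : ℕ → WittVector p K.carrier →+ WittVector p K.carrier)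
      (L₀ : ℕ → WittVector p K₀.carrier →+ WittVector p K₀.carrier) (_ : Cond 1 L)
      (_ : ∀ n c, wittMap p f (L₀ n c) = L n (wittMap p f c)) (s : K.carrier)
      (_ : TT L (zel s₁ s₂) = teichmuller p s),
      AlgHom.toRingHom f ((TT L₀ Z₀.mat).coeff 2) = s ^ p ^ 2 := by
    intro L L₀ hL hL₀ s hs
    have h4 := TT_kill hL Z.2 h2
    have h5 : TT L Y.mat - TT L Z.mat = wittMap p f (TT L₀ Z₀.mat) - (p : WittVector p K.carrier) ^ 2
        * teichmuller p s := by
      rw [← map_sub, ← h3', map_sub, map_nsmul, hs, wf_TT f hL₀, nsmul_eq_mul, Nat.cast_pow]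
    have h6 : (p : WittVector p K.carrier) ^ 3 ∣ wittMap p f (TT L₀ Z₀.mat)
        - (p : WittVector p K.carrier) ^ 2 * teichmuller p s := h5 ▸ h4
    exact coeff_two h6
  have k1 := key Lam1 Lam1 cond_Lam1 (wf_Lam1 f) _ (TT1_zel s₁ s₂)
  have k2 := key Lam2 Lam2 cond_Lam2 (wf_Lam2 f) _ (TT2_zel s₁ s₂)
  rw [← pow_mul, ← pow_add] at k1 k2
  refine hK₀ ((TT Lam1 Z₀.mat).coeff 2)
    ((TT Lam2 Z₀.mat).coeff 2) ?_
  refine AlgebraicIndependent.of_comp (show K₀.carrier →ₐ[k] K.carrier from f) ?_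
  have h5 : ((show K₀.carrier →ₐ[k] K.carrier from f) ∘ ![(TT Lam1 Z₀.mat).coeff 2,
      (TT Lam2 Z₀.mat).coeff 2]) = fun i : Fin 2 => φ (MvPolynomial.X i) := by
    funext i
    fin_cases i
    · exact k1.trans hs₁
    · exact k2.trans hs₂
  rw [h5]
  exact hind

end Pool.Agent.P8H34.UA
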