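import Pool.Agent.P8H34.UA.NotInv

/-!
# The relations in the group `U` of the module `M(0)`
-/

set_option autoImplicit false

namespace Pool.Agent.P8H34.UA

open Matrix WittVector

universe u

section rel

set_option linter.unusedSectionVars false

variable {p : ℕ} [hp : Fact p.Prime] {K : Type u} [Field K] [CharP K p] [PerfectRing K p]
  {G : Type u} [AddCommGroup G]

/-- The relations between the classes of the elements `c e_a ∧ e_b`. -/
structure WedgeRel (β : ℕ → ℕ → WittVector p K →+ G) : Prop where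
  anti : ∀ (a b : ℕ) (c : WittVector p K), β a b c = - β b a c
  diag : ∀ (a : ℕ) (c : WittVector p K), β a a c = 0
  r1 : ∀ (a b : ℕ) (c : WittVector p K), 5 ≤ a → a ≤ 10 → 5 ≤ b → b ≤ 10 →
    β (a + 1) (b + 1) (frobenius c) = β a b ((p : WittVector p K) * c)
  r2 : ∀ (a b : ℕ) (c : WittVector p K), 5 ≤ a → a ≤ 10 → b < 5 →
    β (a + 1) (b + 1) (frobenius c) = β a b c
  r3 : ∀ (a b : ℕ) (c : WittVector p K), a < 5 → b < 5 →
    β (a + 1) (b + 1) ((p : WittVector p K) * frobenius c) = β a b c
  r4 : ∀ (a : ℕ) (c : WittVector p K), 5 ≤ a → a ≤ 10 → β (a + 1) 0 (frobenius c)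
    + β (a + 1) 6 (((p : WittVector p K) - (p : WittVector p K) ^ 3) * frobenius c) = β a 11 c
  r5 : ∀ (a : ℕ) (c : WittVector p K), a < 5 →
    β (a + 1) 0 ((p : WittVector p K) * frobenius c)
    + β (a + 1) 6 ((p : WittVector p K) * (((p : WittVector p K) - (p : WittVector p K) ^ 3)
      * frobenius c)) = β a 11 c

namespace WedgeRel

variable {β : ℕ → ℕ → WittVector p K →+ G} (h : WedgeRel β)

include h

theorem d1 (n t : ℕ) (hn : n + t ≤ 6) (c : WittVector p K) :
    β (5 + n + t) (5 + t) (sg t c) = β (5 + n) 5 ((p : WittVector p K) ^ t * c) := by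
  induction t generalizing c with
  | zero => rw [sg_zero, pow_zero, one_mul]; rfl
  | succ t ih =>
    have h1 := h.r1 (5 + n + t) (5 + t) (sg t c) (by omega) (by omega) (by omega) (by omega)
    rw [frobenius_sg] at h1
    have h2 : (p : WittVector p K) * sg t c = sg t ((p : WittVector p K) * c) := by rw [map_mul, map_natCast]
    rw [h2, ih (by omega)] at h1
    rw [show 5 + n + (t + 1) = 5 + n + t + 1 by omega, show 5 + (t + 1) = 5 + t + 1 by omega, h1]
    refine congrArg (β (5 + n) 5) ?_
    ring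

theorem d2 (j : ℕ) (hj : j ≤ 5) (s : ℕ) (hs : s + j ≤ 6) (c : WittVector p K) :
    β (5 + s) (5 - j) c = β (5 + (s + j)) 5 (sg j c) := by
  induction j generalizing s c with
  | zero => rw [sg_zero]; rfl
  | succ j ih =>
    have h1 := h.r2 (5 + s) (5 - (j + 1)) c (by omega) (by omega) (by omega)
    rw [← h1, show 5 + s + 1 = 5 + (s + 1) by omega, show 5 - (j + 1) + 1 = 5 - j by omega,
      ih (by omega) (s + 1) (by omega), sg_frobenius, show s + 1 + j = s + (j + 1) by omega]

theorem d2' (r : ℕ) (hr : r ≤ 6) (j : ℕ) (hj : j ≤ 5) (hrj : r ≤ j) (c : WittVector p K) :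
    β (11 - r) (5 - j) c = β 11 (5 - (j - r)) (sg r c) := by
  induction r generalizing j c with
  | zero => rw [sg_zero]; rfl
  | succ r ih =>
    have h1 := h.r2 (11 - (r + 1)) (5 - j) c (by omega) (by omega) (by omega)
    rw [← h1, show 11 - (r + 1) + 1 = 11 - r by omega, show 5 - j + 1 = 5 - (j - 1) by omega,
      ih (by omega) (j - 1) (by omega) (by omega), sg_frobenius,
      show j - 1 - r = j - (r + 1) by omega]

theorem d4 (m : ℕ) (a b : ℕ) (ha : a + m ≤ 5) (hb : b + m ≤ 5) (c : WittVector p K) :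
    β a b c = β (a + m) (b + m) ((p : WittVector p K) ^ m * sg m c) := by
  induction m generalizing a b c with
  | zero => rw [sg_zero, pow_zero, one_mul]; rfl
  | succ m ih =>
    have h1 := h.r3 a b c (by omega) (by omega)
    have h2 : (p : WittVector p K) ^ m * sg m ((p : WittVector p K) * frobenius c)
        = (p : WittVector p K) ^ (m + 1) * sg (m + 1) c := by
      rw [map_mul, map_natCast, sg_frobenius]
      ring
    rw [← h1, ih (a + 1) (b + 1) (by omega) (by omega), h2,
      show a + 1 + m = a + (m + 1) by omega, show b + 1 + m = b + (m + 1) by omega]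

theorem d3 (i : ℕ) (hi : 1 ≤ i) (hi5 : i ≤ 5) (c : WittVector p K) :
    β 11 (5 - i) c = β (5 + i) 5 (((p : WittVector p K) ^ 2 - (p : WittVector p K) ^ 4) * sg i c)
      - β (5 + (6 - i)) 5 ((p : WittVector p K) ^ i * sg 6 c) := by
  have h1 := h.r5 (5 - i) c (by omega)
  rw [show 5 - i + 1 = 6 - i by omega] at h1
  have h2 : β (6 - i) 6 ((p : WittVector p K) * (((p : WittVector p K) - (p : WittVector p K) ^ 3) * frobenius c))
      = - β (5 + i) 5 (((p : WittVector p K) ^ 2 - (p : WittVector p K) ^ 4) * sg i c) := by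
    have h3 := h.d2 (i - 1) (by omega) 1 (by omega)
      ((p : WittVector p K) * (((p : WittVector p K) - (p : WittVector p K) ^ 3) * frobenius c))
    rw [show 5 - (i - 1) = 6 - i by omega, show 1 + (i - 1) = i by omega] at h3
    have h3' : sg (i - 1) ((p : WittVector p K) * (((p : WittVector p K)
        - (p : WittVector p K) ^ 3) * frobenius c))
        = ((p : WittVector p K) ^ 2 - (p : WittVector p K) ^ 4) * sg i c := by
      simp only [map_mul, map_sub, map_pow, map_natCast, sg_frobenius]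
      rw [show i - 1 + 1 = i by omega]
      ring
    rw [h3'] at h3
    rw [h.anti]
    exact congrArg (fun x => -x) h3
  have h4 : β (6 - i) 0 ((p : WittVector p K) * frobenius c) = β (5 + (6 - i)) 5 ((p : WittVector p K) ^ i * sg 6 c) := by
    have h5 := h.d4 (i - 1) (6 - i) 0 (by omega) (by omega) ((p : WittVector p K) * frobenius c)
    have h6 := h.d2 (6 - i) (by omega) 0 (by omega)
      ((p : WittVector p K) ^ (i - 1) * sg (i - 1) ((p : WittVector p K) * frobenius c))
    have h7 : sg (6 - i) ((p : WittVector p K) ^ (i - 1) * sg (i - 1)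
        ((p : WittVector p K) * frobenius c)) = (p : WittVector p K) ^ i * sg 6 c := by
      simp only [map_mul, map_pow, map_natCast, sg_frobenius, sg_sg]
      rw [show 6 - i + (i - 1 + 1) = 6 by omega]
      obtain ⟨i', rfl⟩ : ∃ i', i = i' + 1 := ⟨i - 1, by omega⟩
      rw [show i' + 1 - 1 = i' by omega]
      ring
    rw [h7] at h6
    rw [h5, show 6 - i + (i - 1) = 5 + 0 by omega, show 0 + (i - 1) = 5 - (6 - i) by omega, h6,
      show 0 + (6 - i) = 6 - i by omega]
  rw [h2, h4] at h1
  rw [h.anti, ← h1]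
  abel

theorem eqE (a : ℕ) (ha : 1 ≤ a) (ha5 : a ≤ 5) (d : WittVector p K) :
    β (5 + a) 5 (((p : WittVector p K) ^ 2 - (p : WittVector p K) ^ 4) * sg a (d + sg 6 d))
      + β (5 + (6 - a)) 5 ((p : WittVector p K) ^ a * (d - sg 12 d)) = 0 := by
  have h1 := h.r4 (5 + a) (sg a d) (by omega) (by omega)
  have h2 : β (5 + a + 1) 6 (((p : WittVector p K) - (p : WittVector p K) ^ 3) * frobenius (sg a d))
      = β (5 + a) 5 (((p : WittVector p K) ^ 2 - (p : WittVector p K) ^ 4) * sg a d) := by
    have h3 := h.d1 a 1 (by omega) (((p : WittVector p K) - (p : WittVector p K) ^ 3) * sg a d)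
    have h4 : sg 1 (((p : WittVector p K) - (p : WittVector p K) ^ 3) * sg a d)
        = ((p : WittVector p K) - (p : WittVector p K) ^ 3) * frobenius (sg a d) := by
      simp only [map_mul, map_sub, map_pow, map_natCast]
      rfl
    rw [h4] at h3
    have h4' : (p : WittVector p K) ^ 1 * (((p : WittVector p K) - (p : WittVector p K) ^ 3) * sg a d)
        = ((p : WittVector p K) ^ 2 - (p : WittVector p K) ^ 4) * sg a d := by ring
    rw [h4'] at h3
    exact h3
  have h5 : β (5 + a + 1) 0 (frobenius (sg a d))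
      = β (5 + a) 5 (((p : WittVector p K) ^ 2 - (p : WittVector p K) ^ 4) * sg a (sg 6 d))
        - β (5 + (6 - a)) 5 ((p : WittVector p K) ^ a * sg 12 d) := by
    have h6 := h.d2' (5 - a) (by omega) 5 (le_refl 5) (by omega) (frobenius (sg a d))
    rw [show 11 - (5 - a) = 5 + a + 1 by omega, show 5 - 5 = 0 by norm_num,
      show 5 - (5 - (5 - a)) = 5 - a by omega, sg_frobenius, sg_sg,
      show 5 - a + 1 + a = 6 by omega, h.d3 a ha ha5, sg_sg] at h6
    exact h6
  have h7 : β (5 + a) 11 (sg a d) = - β (5 + (6 - a)) 5 ((p : WittVector p K) ^ a * d) := by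
    have h8 := h.d1 (6 - a) a (by omega) d
    rw [show 5 + (6 - a) + a = 11 by omega] at h8
    rw [h.anti, h8]
  rw [h2, h5, h7] at h1
  rw [map_add (sg a), mul_add, mul_sub, map_add, map_sub]
  rw [sub_add_eq_add_sub, ← sub_eq_zero] at h1
  rw [← h1]
  abel

theorem eqE0 (c : WittVector p K) : β 11 5 (c + sg 6 c) = 0 := by
  have h1 := h.r4 5 c (by omega) (by omega)
  rw [h.diag, add_zero] at h1
  have h2 := h.d2 5 (le_refl 5) 1 (by omega) (frobenius c)
  rw [sg_frobenius] at h2
  have h3 : β 6 0 (frobenius c) = β 11 5 (sg 6 c) := h2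
  rw [map_add, ← h3]
  have h4 : β (5 + 1) 0 (frobenius c) = β 6 0 (frobenius c) := rfl
  rw [← h4, h1, h.anti 5 11]
  abel

end WedgeRel

end rel

section kill

set_option linter.unusedSectionVars false

variable {p : ℕ} [hp : Fact p.Prime] {K : Type u} [Field K] [CharP K p] [IsAlgClosed K]
  {G : Type u} [AddCommGroup G]

theorem surj_add_sg : Function.Surjective (fun c : WittVector p K => c + sg 6 c) := by
  have h1 := surjective_of_coeff (p := p) (K := K)
    (AddMonoidHom.id _ + (sg 6).toAddMonoidHom) (fun x => x + x ^ p ^ 6) (exists_add_pow 5)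
    (by
      intro x
      have h2 : (AddMonoidHom.id _ + (sg 6).toAddMonoidHom : WittVector p K →+ WittVector p K) x
        = x + sg 6 x := rfl
      rw [h2, coeff_zero_add, sg_iterate, coeff_iterate_frobenius])
  exact h1

/-- The coefficient `0` of `1 - p²`. -/
theorem coeff_unit (n : ℕ) : (((1 : WittVector p K) - (p : WittVector p K) ^ 2) ^ n).coeff 0 = 1 := by
  have h1 : (constantCoeff : WittVector p K →+* K) (((1 : WittVector p K) - (p : WittVector p K) ^ 2) ^ n) = 1 := by
    rw [map_pow, map_sub, map_one, map_pow, map_natCast, CharP.cast_eq_zero K p]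
    simp
  exact h1

theorem coeff_p_mul (x : WittVector p K) : ((p : WittVector p K) * x).coeff 0 = 0 := by
  rw [← dvd_iff_coeff_zero]
  exact ⟨x, rfl⟩

theorem surj_S2 : Function.Surjective (fun f : WittVector p K =>
    (1 - (p : WittVector p K) ^ 2) ^ 2 * sg 6 f
      - (p : WittVector p K) ^ 2 * ((f - sg 6 f) - sg 6 (f - sg 6 f))) := by
  let F : WittVector p K →+ WittVector p K := AddMonoidHom.mk' (fun f : WittVector p K =>
    (1 - (p : WittVector p K) ^ 2) ^ 2 * sg 6 f
      - (p : WittVector p K) ^ 2 * ((f - sg 6 f) - sg 6 (f - sg 6 f))) (by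
        intro a b
        simp only [map_add, map_sub]
        ring)
  have h1 := surjective_of_coeff F (fun x => 1 * x ^ p ^ 6) (exists_pow_mul 1 one_ne_zero 6)
    (by
      intro x
      have h2 : F x = (1 - (p : WittVector p K) ^ 2) ^ 2 * sg 6 x
        - (p : WittVector p K) * ((p : WittVector p K) * ((x - sg 6 x) - sg 6 (x - sg 6 x))) := by
        change (1 - (p : WittVector p K) ^ 2) ^ 2 * sg 6 x
          - (p : WittVector p K) ^ 2 * ((x - sg 6 x) - sg 6 (x - sg 6 x)) = _
        ring
      rw [h2, coeff_zero_sub, coeff_p_mul, sub_zero, coeff_zero_mul, coeff_unit, sg_iterate,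
        coeff_iterate_frobenius])
  exact h1

theorem surj_S3 : Function.Surjective (fun e : WittVector p K =>
    (1 - (p : WittVector p K) ^ 2) * sg 1 e) := by
  let F : WittVector p K →+ WittVector p K := AddMonoidHom.mk' (fun e : WittVector p K =>
    (1 - (p : WittVector p K) ^ 2) * sg 1 e) (by
        intro a b
        simp only [map_add]
        ring)
  have h1 := surjective_of_coeff F (fun x => 1 * x ^ p ^ 1) (exists_pow_mul 1 one_ne_zero 1)
    (by
      intro x
      have h2 : F x = (1 - (p : WittVector p K) ^ 2) ^ 1 * sg 1 x := by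
        rw [pow_one]
        rfl
      rw [h2, coeff_zero_mul, coeff_unit, sg_iterate, coeff_iterate_frobenius])
  exact h1

namespace WedgeRel

variable {β : ℕ → ℕ → WittVector p K →+ G} (h : WedgeRel β)

include h

theorem eqE' (a : ℕ) (ha : 1 ≤ a) (ha5 : a ≤ 5) (e : WittVector p K) :
    β (5 + a) 5 (((p : WittVector p K) ^ 2 - (p : WittVector p K) ^ 4) * sg a e)
      + β (5 + (6 - a)) 5 ((p : WittVector p K) ^ a * (e - sg 6 e)) = 0 := by
  obtain ⟨d, rfl⟩ := surj_add_sg e
  have h1 := h.eqE a ha ha5 d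
  have h2 : (d + sg 6 d) - sg 6 (d + sg 6 d) = d - sg 12 d := by
    rw [map_add, sg_sg]
    ring
  simp only
  rw [h2]
  exact h1

theorem kill_six (c : WittVector p K) : β 11 5 c = 0 := by
  obtain ⟨d, rfl⟩ := surj_add_sg c
  exact h.eqE0 d

theorem kill (b : ℕ) (hb : 2 ≤ b) (hb5 : b ≤ 5) (y : WittVector p K) :
    β (5 + b) 5 ((p : WittVector p K) ^ 2 * y) = 0 := by
  obtain ⟨f, rfl⟩ := surj_S2 y
  have h1 := h.eqE' b (by omega) hb5 ((1 - (p : WittVector p K) ^ 2) * sg (6 - b) f)
  have h2 := h.eqE' (6 - b) (by omega) (by omega) ((p : WittVector p K) ^ (b - 2) * (f - sg 6 f))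
  rw [show 6 - (6 - b) = b by omega] at h2
  have h3 : β (5 + (6 - b)) 5 ((p : WittVector p K) ^ b * ((1 - (p : WittVector p K) ^ 2) * sg (6 - b) f
      - sg 6 ((1 - (p : WittVector p K) ^ 2) * sg (6 - b) f)))
      = β (5 + (6 - b)) 5 (((p : WittVector p K) ^ 2 - (p : WittVector p K) ^ 4) * sg (6 - b)
        ((p : WittVector p K) ^ (b - 2) * (f - sg 6 f))) := by
    refine congrArg (β (5 + (6 - b)) 5) ?_
    simp only [map_mul, map_sub, map_one, map_pow, map_natCast, sg_sg]
    rw [show 6 + (6 - b) = 6 - b + 6 by omega]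
    obtain ⟨b', rfl⟩ : ∃ b', b = b' + 2 := ⟨b - 2, by omega⟩
    rw [show b' + 2 - 2 = b' by omega]
    ring
  rw [h3] at h1
  have h4 : β (5 + b) 5 (((p : WittVector p K) ^ 2 - (p : WittVector p K) ^ 4) * sg b
      ((1 - (p : WittVector p K) ^ 2) * sg (6 - b) f)
      - (p : WittVector p K) ^ (6 - b) * ((p : WittVector p K) ^ (b - 2) * (f - sg 6 f)
        - sg 6 ((p : WittVector p K) ^ (b - 2) * (f - sg 6 f)))) = 0 := by
    rw [map_sub, eq_neg_of_add_eq_zero_left h1, eq_neg_of_add_eq_zero_right h2, sub_self]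
  refine Eq.trans (congrArg (β (5 + b) 5) ?_) h4
  simp only [map_mul, map_sub, map_one, map_pow, map_natCast, sg_sg]
  rw [show b + (6 - b) = 6 by omega]
  obtain ⟨b', rfl⟩ : ∃ b', b = b' + 2 := ⟨b - 2, by omega⟩
  rw [show b' + 2 - 2 = b' by omega]
  have h5 : (p : WittVector p K) ^ (6 - (b' + 2)) * (p : WittVector p K) ^ b'
      = (p : WittVector p K) ^ 4 := by
    rw [← pow_add]
    refine congrArg _ ?_
    omega
  linear_combination ((f - sg 6 f) - (sg 6 f - sg 12 f)) * h5

theorem kill_one (y : WittVector p K) : β 6 5 ((p : WittVector p K) ^ 3 * y) = 0 := by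
  obtain ⟨e, rfl⟩ := surj_S3 y
  have h1 := h.eqE' 1 (by omega) (by omega) ((p : WittVector p K) * e)
  have h2 : β (5 + (6 - 1)) 5 ((p : WittVector p K) ^ 1 * ((p : WittVector p K) * e - sg 6 ((p : WittVector p K) * e))) = 0 := by
    have h3 := h.kill 5 (by omega) (by omega) (e - sg 6 e)
    refine Eq.trans (congrArg (β (5 + (6 - 1)) 5) ?_) h3
    rw [map_mul, map_natCast]
    ring
  rw [h2, add_zero] at h1
  refine Eq.trans (congrArg (β 6 5) ?_) h1
  rw [map_mul, map_natCast]
  ring

end WedgeRel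

end kill

end Pool.Agent.P8H34.UA
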