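import Pool.Agent.P8H34.UA.Inv

/-!
# The algebraic closure of a field generated by one element
-/

set_option autoImplicit false

namespace Pool.Agent.P8H34.UA

universe u

set_option linter.unusedSectionVars false

variable {k : Type u} [Field k] [IsAlgClosed k]

/-- The algebraic closure of `k(t)` in `K`. -/
noncomputable def oneExt (K : AlgClosedExt k) (t : K.carrier) : AlgClosedExt k where
  carrier := algebraicClosure (IntermediateField.adjoin k {t}) K.carrier
  isAlgClosed := (algebraicClosure.isAlgClosure (F := IntermediateField.adjoin k {t})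
    (E := K.carrier)).isAlgClosed

/-- The inclusion of `oneExt K t` in `K`. -/
noncomputable def oneExtHom (K : AlgClosedExt k) (t : K.carrier) :
    Emb (oneExt K t) K :=
  ((algebraicClosure (IntermediateField.adjoin k {t}) K.carrier).val).restrictScalars k

/-- The element `t` of `oneExt K t`. -/
noncomputable def oneGen (K : AlgClosedExt k) (t : K.carrier) : (oneExt K t).carrier :=
  ⟨t, (algebraicClosure (IntermediateField.adjoin k {t}) K.carrier).algebraMap_mem
    (IntermediateField.AdjoinSimple.gen k t)⟩

theorem oneExtHom_gen (K : AlgClosedExt k) (t : K.carrier) :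
    AlgHom.toRingHom (oneExtHom K t) (oneGen K t) = t := rfl

open scoped IntermediateField.algebraAdjoinAdjoin in
theorem trdeg_oneExt (K : AlgClosedExt k) (t : K.carrier) :
    Algebra.trdeg k (oneExt K t).carrier ≤ 1 := by
  have h1 : Algebra.trdeg k (Algebra.adjoin k ({t} : Set K.carrier)) ≤ 1 := by
    let f : Polynomial k →ₐ[k] Algebra.adjoin k ({t} : Set K.carrier) :=
      Polynomial.aeval ⟨t, Algebra.self_mem_adjoin_singleton k t⟩
    have hf : Function.Surjective f := by
      rintro ⟨x, hx⟩
      rw [Algebra.adjoin_singleton_eq_range_aeval] at hx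
      obtain ⟨q, rfl⟩ := hx
      refine ⟨q, Subtype.ext ?_⟩
      have h2 := Polynomial.aeval_algHom_apply (Algebra.adjoin k ({t} : Set K.carrier)).val
        ⟨t, Algebra.self_mem_adjoin_singleton k t⟩ q
      exact h2.symm
    refine le_trans (trdeg_le_of_surjective f hf) ?_
    rw [Polynomial.trdeg_of_isDomain]
  have h2 : Algebra.trdeg k (IntermediateField.adjoin k ({t} : Set K.carrier)) ≤ 1 := by
    have e1 : FaithfulSMul k (Algebra.adjoin k ({t} : Set K.carrier)) :=
      (faithfulSMul_iff_algebraMap_injective _ _).2 (RingHom.injective _)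
    have e2 := trdeg_add_eq k (Algebra.adjoin k ({t} : Set K.carrier))
      (A := IntermediateField.adjoin k ({t} : Set K.carrier))
    have e3 : Algebra.trdeg (Algebra.adjoin k ({t} : Set K.carrier))
      (IntermediateField.adjoin k ({t} : Set K.carrier)) = 0 := trdeg_eq_zero
    rw [← e2, e3, add_zero]
    exact h1
  have h3 : Algebra.trdeg k
      (algebraicClosure (IntermediateField.adjoin k ({t} : Set K.carrier)) K.carrier) ≤ 1 := by
    have e1 : FaithfulSMul (IntermediateField.adjoin k ({t} : Set K.carrier))
        (algebraicClosure (IntermediateField.adjoin k ({t} : Set K.carrier)) K.carrier) :=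
      (faithfulSMul_iff_algebraMap_injective _ _).2 (RingHom.injective _)
    have e2 := trdeg_add_eq k (IntermediateField.adjoin k ({t} : Set K.carrier))
      (A := algebraicClosure (IntermediateField.adjoin k ({t} : Set K.carrier)) K.carrier)
    have e3 : Algebra.trdeg (IntermediateField.adjoin k ({t} : Set K.carrier))
        (algebraicClosure (IntermediateField.adjoin k ({t} : Set K.carrier)) K.carrier) = 0 :=
      trdeg_eq_zero
    rw [← e2, e3, add_zero]
    exact h2
  exact h3

theorem small_oneExt (K : AlgClosedExt k) (t : K.carrier) : Small (oneExt K t) := by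
  intro a b h
  have h1 := h.lift_cardinalMk_le_trdeg
  have h2 := le_trans h1 (Cardinal.lift_le.2 (trdeg_oneExt K t))
  simp at h2

end Pool.Agent.P8H34.UA
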