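import Pool.Agent.P8H34.UA.PartA
import Pool.Agent.P8H34.UA.Small

/-!
# The group `U` of the module `M(0)` satisfies `Inv`
-/

set_option autoImplicit false

namespace Pool.Agent.P8H34.UA

open Matrix WittVector

universe u

set_option linter.unusedSectionVars false

section kill2

variable {p : ℕ} [hp : Fact p.Prime] {K : Type u} [Field K] [CharP K p] [IsAlgClosed K]
  {G : Type u} [AddCommGroup G]

namespace WedgeRel

variable {β : ℕ → ℕ → WittVector p K →+ G} (h : WedgeRel β)

include h

theorem k2 (n : ℕ) (hn : 2 ≤ n) (hn6 : n ≤ 6) (y : WittVector p K) :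
    β (5 + n) 5 ((p : WittVector p K) ^ 2 * y) = 0 := by
  rcases Nat.lt_or_ge n 6 with h1 | h1
  · exact h.kill n hn (by omega) y
  · obtain rfl : n = 6 := by omega
    exact h.kill_six _

theorem k3 (n : ℕ) (hn : 1 ≤ n) (hn6 : n ≤ 6) (m : ℕ) (hm : 3 ≤ m) (y : WittVector p K) :
    β (5 + n) 5 ((p : WittVector p K) ^ m * y) = 0 := by
  obtain ⟨m', rfl⟩ : ∃ m', m = m' + 3 := ⟨m - 3, by omega⟩
  rcases Nat.lt_or_ge n 2 with h1 | h1
  · obtain rfl : n = 1 := by omega
    have h2 : (p : WittVector p K) ^ (m' + 3) * y = (p : WittVector p K) ^ 3 * (p ^ m' * y) := by ring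
    rw [h2]
    exact h.kill_one _
  · have h2 : (p : WittVector p K) ^ (m' + 3) * y
        = (p : WittVector p K) ^ 2 * (p ^ (m' + 1) * y) := by ring
    rw [h2]
    exact h.k2 n h1 hn6 _

/-- `p² β(a, b) = 0` except for two pairs. -/
theorem pair_kill (a b : ℕ) (hab : a < b) (hb : b ≤ 11) (h1 : ¬ (a = 5 ∧ b = 6))
    (h2 : ¬ (a = 4 ∧ b = 5)) (c : WittVector p K) : β a b ((p : WittVector p K) ^ 2 * c) = 0 := by
  rw [h.anti, neg_eq_zero]
  rcases Nat.lt_or_ge a 5 with ha | ha
  · rcases Nat.lt_or_ge b 5 with hb5 | hb5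
    · -- both below `5`
      rw [h.anti, neg_eq_zero, h.anti, neg_eq_zero, h.d4 (5 - b) b a (by omega) (by omega),
        show b + (5 - b) = 5 + 0 by omega, show a + (5 - b) = 5 - (b - a) by omega,
        h.d2 (b - a) (by omega) 0 (by omega)]
      have e1 : sg (b - a) ((p : WittVector p K) ^ (5 - b)
          * sg (5 - b) ((p : WittVector p K) ^ 2 * c))
          = (p : WittVector p K) ^ (5 - b + 2) * sg (b - a + (5 - b)) c := by
        simp only [map_mul, map_pow, map_natCast, sg_sg]
        ring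
      rw [e1, show 0 + (b - a) = b - a by omega]
      exact h.k3 (b - a) (by omega) (by omega) _ (by omega) _
    · -- `a < 5 ≤ b`
      rcases Nat.lt_or_ge 6 (b - 5 + (5 - a)) with h3 | h3
      · have e1 := h.d2' (11 - b) (by omega) (5 - a) (by omega) (by omega)
          ((p : WittVector p K) ^ 2 * c)
        rw [show 11 - (11 - b) = b by omega, show 5 - (5 - a) = a by omega] at e1
        rw [e1, h.d3 (5 - a - (11 - b)) (by omega) (by omega)]
        have e2 : ((p : WittVector p K) ^ 2 - (p : WittVector p K) ^ 4)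
            * sg (5 - a - (11 - b)) (sg (11 - b) ((p : WittVector p K) ^ 2 * c))
            = (p : WittVector p K) ^ 3 * (((p : WittVector p K) - (p : WittVector p K) ^ 3)
              * sg (5 - a - (11 - b) + (11 - b)) c) := by
          simp only [map_mul, map_pow, map_natCast, sg_sg]
          ring
        have e3 : (p : WittVector p K) ^ (5 - a - (11 - b)) * sg 6 (sg (11 - b)
            ((p : WittVector p K) ^ 2 * c))
            = (p : WittVector p K) ^ (5 - a - (11 - b) + 2) * sg (6 + (11 - b)) c := by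
          simp only [map_mul, map_pow, map_natCast, sg_sg]
          ring
        rw [e2, e3, h.k3 _ (by omega) (by omega) 3 (le_refl 3),
          h.k3 _ (by omega) (by omega) _ (by omega), sub_zero]
      · have e1 := h.d2 (5 - a) (by omega) (b - 5) (by omega) ((p : WittVector p K) ^ 2 * c)
        rw [show 5 + (b - 5) = b by omega, show 5 - (5 - a) = a by omega] at e1
        rw [e1, map_mul, map_pow, map_natCast]
        exact h.k2 _ (by omega) (by omega) _
  · -- both at least `5`
    obtain ⟨c', rfl⟩ := sg_surjective (a - 5) c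
    have e1 := h.d1 (b - a) (a - 5) (by omega) ((p : WittVector p K) ^ 2 * c')
    rw [map_mul, map_pow, map_natCast, show 5 + (b - a) + (a - 5) = b by omega,
      show 5 + (a - 5) = a by omega] at e1
    rw [e1]
    rcases Nat.lt_or_ge (b - a) 2 with h3 | h3
    · have e2 : (p : WittVector p K) ^ (a - 5) * ((p : WittVector p K) ^ 2 * c')
          = (p : WittVector p K) ^ (a - 5 + 2) * c' := by ring
      rw [e2]
      exact h.k3 _ (by omega) (by omega) _ (by omega) _
    · have e2 : (p : WittVector p K) ^ (a - 5) * ((p : WittVector p K) ^ 2 * c')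
          = (p : WittVector p K) ^ 2 * ((p : WittVector p K) ^ (a - 5) * c') := by ring
      rw [e2]
      exact h.k2 _ h3 (by omega) _

theorem pair_45 (c : WittVector p K) : β 4 5 c = β 5 6 (sg 1 c) := by
  have h1 := h.d2 1 (by omega) 0 (by omega) c
  rw [h.anti 4 5, h.anti 5 6]
  exact congrArg (fun x => -x) h1

theorem teich (c : WittVector p K) : β 5 6 ((p : WittVector p K) ^ 2 * c)
    = β 5 6 ((p : WittVector p K) ^ 2 * teichmuller p (c.coeff 0)) := by
  have h1 : (p : WittVector p K) ∣ c - teichmuller p (c.coeff 0) := by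
    rw [dvd_iff_coeff_zero, coeff_zero_sub, teichmuller_coeff_zero, sub_self]
  obtain ⟨d, hd⟩ := h1
  have h2 : (p : WittVector p K) ^ 2 * c
      = (p : WittVector p K) ^ 2 * teichmuller p (c.coeff 0) + (p : WittVector p K) ^ 3 * d := by
    linear_combination (p : WittVector p K) ^ 2 * hd
  have h3 : β 5 6 ((p : WittVector p K) ^ 3 * d) = 0 := by
    rw [h.anti, h.kill_one, neg_zero]
  rw [h2, map_add, h3, add_zero]

end WedgeRel

end kill2

variable {p : ℕ} [hp : Fact p.Prime] {k : Type u} [Field k] [CharP k p] [IsAlgClosed k]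

/-- The element of the exterior square given by the matrix `N - Nᵀ`. -/
noncomputable def asymEl (p : ℕ) [Fact p.Prime] [CharP k p] (K : AlgClosedExt k) :
    Matrix (Fin 12) (Fin 12) (WittVector p K.carrier) →+ ExtSq p 12 K :=
  AddMonoidHom.mk' (fun N => ⟨asym N, asym_mem N⟩) (fun N N' => Subtype.ext (asym_add N N'))

/-- The class in `U` of the alternating matrix `N - Nᵀ`. -/
noncomputable def cls (p : ℕ) [Fact p.Prime] [CharP k p] (K : AlgClosedExt k) :
    Matrix (Fin 12) (Fin 12) (WittVector p K.carrier) →+ pointsU (exM p k 0) K :=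
  (QuotientAddGroup.mk' (imageU (exM p k 0) K)).comp (asymEl p K)

theorem cls_apply (K : AlgClosedExt k) (N : Matrix (Fin 12) (Fin 12) (WittVector p K.carrier)) :
    cls p K N = (QuotientAddGroup.mk (asymEl p K N) : ExtSq p 12 K ⧸ imageU (exM p k 0) K) := rfl

theorem asymEl_mat (K : AlgClosedExt k) (N : Matrix (Fin 12) (Fin 12) (WittVector p K.carrier)) :
    (asymEl p K N).mat = asym N := rfl

theorem cls_eq {K : AlgClosedExt k} {N N' : Matrix (Fin 12) (Fin 12) (WittVector p K.carrier)}
    (h : FF 0 N = p • N') : cls p K N' = cls p K N := by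
  refine QuotientAddGroup.eq_iff_sub_mem.2 ?_
  rw [mem_imageU]
  refine ⟨asymEl p K N', asymEl p K N, ?_, rfl⟩
  rw [frobSq_exM, asymEl_mat, asymEl_mat, FF_asym, h, asym, asym, Matrix.transpose_smul, ← smul_sub]

theorem cls_eq_zero {K : AlgClosedExt k} {N : Matrix (Fin 12) (Fin 12) (WittVector p K.carrier)}
    (h : asym N = 0) : cls p K N = 0 := by
  have h1 : asymEl p K N = 0 := Subtype.ext h
  rw [cls_apply, h1]
  rfl

theorem cls_transpose (K : AlgClosedExt k)
    (N : Matrix (Fin 12) (Fin 12) (WittVector p K.carrier)) : cls p K Nᵀ = - cls p K N := by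
  rw [eq_neg_iff_add_eq_zero, ← map_add]
  refine cls_eq_zero ?_
  rw [asym, Matrix.transpose_add, Matrix.transpose_transpose]
  abel

/-- The class of `c e_a ∧ e_b`. -/
noncomputable def bet (p : ℕ) [Fact p.Prime] [CharP k p] (K : AlgClosedExt k) (a b : ℕ) :
    WittVector p K.carrier →+ pointsU (exM p k 0) K :=
  (cls p K).comp (Matrix.singleAddMonoidHom (Fin.ofNat 12 a) (Fin.ofNat 12 b))

theorem bet_apply (K : AlgClosedExt k) (a b : ℕ) (c : WittVector p K.carrier) :
    bet p K a b c = cls p K (Matrix.single (Fin.ofNat 12 a) (Fin.ofNat 12 b) c) := rfl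

theorem ofNat_castSucc (a : ℕ) (h : a < 11) : Fin.ofNat 12 a = (⟨a, h⟩ : Fin 11).castSucc := by
  ext
  simp
  omega

theorem ofNat_succ (a : ℕ) (h : a < 11) : Fin.ofNat 12 (a + 1) = (⟨a, h⟩ : Fin 11).succ := by
  ext
  simp
  omega

theorem bet_rel (K : AlgClosedExt k) : WedgeRel (bet p K) where
  anti a b c := by
    rw [bet_apply, bet_apply, ← Matrix.transpose_single, cls_transpose]
  diag a c := by
    rw [bet_apply]
    refine cls_eq_zero ?_
    rw [asym, Matrix.transpose_single, sub_self]
  r1 a b c ha ha' hb hb' := by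
    rw [bet_apply, bet_apply]
    refine cls_eq ?_
    rw [ofNat_castSucc a (by omega), ofNat_castSucc b (by omega), ofNat_succ a (by omega),
      ofNat_succ b (by omega), FF_single_lt, if_neg (by simp; omega), if_neg (by simp; omega),
      Matrix.smul_single, map_mul, map_natCast, nsmul_eq_mul, one_mul, one_mul]
  r2 a b c ha ha' hb := by
    rw [bet_apply, bet_apply]
    refine cls_eq ?_
    rw [ofNat_castSucc a (by omega), ofNat_castSucc b (by omega), ofNat_succ a (by omega),
      ofNat_succ b (by omega), FF_single_lt, if_neg (by simp; omega), if_pos (by simp; omega),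
      Matrix.smul_single, nsmul_eq_mul, one_mul]
  r3 a b c ha hb := by
    rw [bet_apply, bet_apply]
    refine cls_eq ?_
    rw [ofNat_castSucc a (by omega), ofNat_castSucc b (by omega), ofNat_succ a (by omega),
      ofNat_succ b (by omega), FF_single_lt, if_pos (by simp; omega), if_pos (by simp; omega),
      Matrix.smul_single, nsmul_eq_mul, mul_assoc]
  r4 a c ha ha' := by
    rw [bet_apply, bet_apply, bet_apply, ← map_add]
    refine cls_eq ?_
    rw [show Fin.ofNat 12 11 = (11 : Fin 12) from rfl, show Fin.ofNat 12 0 = (0 : Fin 12) from rfl,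
      show Fin.ofNat 12 6 = (6 : Fin 12) from rfl,
      ofNat_castSucc a (by omega), ofNat_succ a (by omega), FF_single_last, if_neg (by simp; omega)]
    simp
  r5 a c ha := by
    rw [bet_apply, bet_apply, bet_apply, ← map_add]
    refine cls_eq ?_
    rw [show Fin.ofNat 12 11 = (11 : Fin 12) from rfl, show Fin.ofNat 12 0 = (0 : Fin 12) from rfl,
      show Fin.ofNat 12 6 = (6 : Fin 12) from rfl,
      ofNat_castSucc a (by omega), ofNat_succ a (by omega), FF_single_last, if_pos (by simp; omega)]
    simp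

theorem cls_map {K₀ K : AlgClosedExt k} (f : Emb K₀ K)
    (N : Matrix (Fin 12) (Fin 12) (WittVector p K₀.carrier)) :
    pointsU.map (exM p k 0) f (cls p K₀ N) = cls p K (N.map (wittMap p f)) := by
  have h1 : ExtSq.map p 12 f (asymEl p K₀ N) = asymEl p K (N.map (wittMap p f)) := by
    refine Subtype.ext (Matrix.ext fun a b => ?_)
    exact map_sub (wittMap p f) _ _
  have h2 : pointsU.map (exM p k 0) f (cls p K₀ N)
      = (QuotientAddGroup.mk (ExtSq.map p 12 f (asymEl p K₀ N)) :
        ExtSq p 12 K ⧸ imageU (exM p k 0) K) := rfl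
  rw [h2, h1, cls_apply]

theorem bet_map {K₀ K : AlgClosedExt k} (f : Emb K₀ K) (a b : ℕ)
    (c : WittVector p K₀.carrier) :
    pointsU.map (exM p k 0) f (bet p K₀ a b c) = bet p K a b (wittMap p f c) := by
  rw [bet_apply, cls_map, Matrix.map_single, bet_apply]

theorem asym_sum {K : AlgClosedExt k} (s : Finset (Fin 12 × Fin 12))
    (N : Fin 12 × Fin 12 → Matrix (Fin 12) (Fin 12) (WittVector p K.carrier)) :
    asym (∑ q ∈ s, N q) = ∑ q ∈ s, asym (N q) := by
  classical
  induction s using Finset.induction_on with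
  | empty => simp [asym]
  | insert a s ha ih => rw [Finset.sum_insert ha, Finset.sum_insert ha, asym_add, ih]

theorem mk_eq_sum (K : AlgClosedExt k) (Z : ExtSq p 12 K) :
    ((QuotientAddGroup.mk Z : ExtSq p 12 K ⧸ imageU (exM p k 0) K) : pointsU (exM p k 0) K)
      = ∑ q ∈ (Finset.univ : Finset (Fin 12 × Fin 12)).filter (fun q => q.1 < q.2),
        bet p K q.1.val q.2.val (Z.mat q.1 q.2) := by
  have h1 := alt_decomp Z.2
  rw [← asym_sum] at h1
  have h2 : Z = asymEl p K (∑ q ∈ (Finset.univ : Finset (Fin 12 × Fin 12)).filter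
      (fun q => q.1 < q.2), Matrix.single q.1 q.2 (Z.mat q.1 q.2)) := Subtype.ext h1
  have h3 : ((QuotientAddGroup.mk Z : ExtSq p 12 K ⧸ imageU (exM p k 0) K) :
      pointsU (exM p k 0) K)
      = cls p K (∑ q ∈ (Finset.univ : Finset (Fin 12 × Fin 12)).filter (fun q => q.1 < q.2),
      Matrix.single q.1 q.2 (Z.mat q.1 q.2)) :=
    congrArg (fun X => (QuotientAddGroup.mk X : ExtSq p 12 K ⧸ imageU (exM p k 0) K)) h2
  rw [h3, map_sum]
  refine Finset.sum_congr rfl fun q _ => ?_
  have h4 : ∀ a : Fin 12, Fin.ofNat 12 a.val = a := by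
    intro a
    ext
    simp
  rw [bet_apply, h4, h4]

theorem inv_zero : Inv (p ^ 2) (groupU (exM p k 0)) := by
  intro K x
  change pointsU (exM p k 0) K at x
  obtain ⟨Z, hZ⟩ : ∃ Z : ExtSq p 12 K,
      ((QuotientAddGroup.mk Z : ExtSq p 12 K ⧸ imageU (exM p k 0) K) : pointsU (exM p k 0) K) = x :=
    QuotientAddGroup.mk_surjective x
  have hx := hZ.symm.trans (mk_eq_sum K Z)
  have hβ := bet_rel (p := p) K
  have hc : ∀ (a b : ℕ) (c : WittVector p K.carrier),
      p ^ 2 • bet p K a b c = bet p K a b ((p : WittVector p K.carrier) ^ 2 * c) := by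
    intro a b c
    rw [← map_nsmul, nsmul_eq_mul, Nat.cast_pow]
  have h1 : p ^ 2 • x = bet p K 4 5 ((p : WittVector p K.carrier) ^ 2 * Z.mat 4 5)
        + bet p K 5 6 ((p : WittVector p K.carrier) ^ 2 * Z.mat 5 6) := by
    rw [hx, ← Finset.sum_nsmul]
    rw [Finset.sum_eq_add ((4, 5) : Fin 12 × Fin 12) (5, 6) (by decide)]
    · rw [hc, hc]
      rfl
    · rintro ⟨a, b⟩ hq ⟨h2, h3⟩
      have hab : a < b := (Finset.mem_filter.1 hq).2
      rw [hc]
      refine hβ.pair_kill a.val b.val hab (by omega) ?_ ?_ _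
      · rintro ⟨h4, h5⟩
        exact h3 (Prod.ext (Fin.ext h4) (Fin.ext h5))
      · rintro ⟨h4, h5⟩
        exact h2 (Prod.ext (Fin.ext h4) (Fin.ext h5))
    · intro h2
      exact absurd (Finset.mem_filter.2 ⟨Finset.mem_univ _, by decide⟩) h2
    · intro h2
      exact absurd (Finset.mem_filter.2 ⟨Finset.mem_univ _, by decide⟩) h2
  rw [hβ.pair_45, map_mul, map_pow, map_natCast, ← map_add, ← mul_add, hβ.teich] at h1
  set t : K.carrier := (sg 1 (Z.mat 4 5) + Z.mat 5 6).coeff 0 with ht
  refine ⟨oneExt K t, oneExtHom K t, bet p (oneExt K t) 5 6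
    ((p : WittVector p (oneExt K t).carrier) ^ 2 * teichmuller p (oneGen K t)),
    small_oneExt K t, ?_⟩
  refine Eq.trans ?_ h1.symm
  refine (bet_map (oneExtHom K t) 5 6 _).trans ?_
  rw [map_mul, map_pow, map_natCast, wittMap, WittVector.map_teichmuller]
  rfl

/-- The groups `U` of the modules `M(0)` and `M(1)` are not isogenous. -/
theorem not_isogenous : ¬ Isogenous (groupU (exM p k 0)) (groupU (exM p k 1)) :=
  fun h => not_inv ((inv_iff_of_isogenous (p ^ 2) h).1 inv_zero)

end Pool.Agent.P8H34.UA
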