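import Pool.Agent.P8H34.UA.ANum

/-!
# The Newton polygon of the examples
-/

set_option autoImplicit false

namespace Pool.Agent.P8H34.UA

open Matrix WittVector

universe u

variable {p : ℕ} [hp : Fact p.Prime] {k : Type u} [Field k] [CharP k p] [IsAlgClosed k]

namespace DieudonneModule

variable {n : ℕ} (M : DieudonneModule p k n)

theorem F_add (x y : Fin n → WittVector p k) : M.F (x + y) = M.F x + M.F y := by
  rw [F, F, F, ← Matrix.mulVec_add]
  congr 1
  ext i : 1
  simp

theorem F_smul (c : WittVector p k) (x : Fin n → WittVector p k) :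
    M.F (c • x) = frobenius c • M.F x := by
  rw [F, F, ← Matrix.mulVec_smul]
  congr 1
  ext i : 1
  simp

theorem F_zero : M.F 0 = 0 := by
  have h := M.F_smul 0 0
  rwa [zero_smul, map_zero, zero_smul] at h

/-- `F` as an additive homomorphism. -/
noncomputable def Fhom : (Fin n → WittVector p k) →+ (Fin n → WittVector p k) where
  toFun := M.F
  map_zero' := M.F_zero
  map_add' := M.F_add

/-- `F³` as an additive homomorphism. -/
noncomputable def T : (Fin n → WittVector p k) →+ (Fin n → WittVector p k) :=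
  (M.Fhom.comp M.Fhom).comp M.Fhom

theorem T_apply (x : Fin n → WittVector p k) : M.T x = M.F (M.F (M.F x)) := rfl

theorem T_eq (x : Fin n → WittVector p k) : M.F^[3] x = M.T x := rfl

theorem T_F (x : Fin n → WittVector p k) : M.T (M.F x) = M.F (M.T x) := rfl

theorem T_smul (c : WittVector p k) (x : Fin n → WittVector p k) :
    M.T (c • x) = frobenius (frobenius (frobenius c)) • M.T x := by
  rw [T_apply, F_smul, F_smul, F_smul, T_apply]

theorem F_nat_smul (c : ℕ) (x : Fin n → WittVector p k) :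
    M.F ((c : WittVector p k) • x) = (c : WittVector p k) • M.F x := by
  rw [F_smul, map_natCast]

theorem F_int_smul (c : ℤ) (x : Fin n → WittVector p k) :
    M.F ((c : WittVector p k) • x) = (c : WittVector p k) • M.F x := by
  rw [F_smul, map_intCast]

theorem T_int_smul (c : ℤ) (x : Fin n → WittVector p k) :
    M.T ((c : WittVector p k) • x) = (c : WittVector p k) • M.T x := by
  rw [T_smul, map_intCast, map_intCast, map_intCast]

theorem T_nat_smul (c : ℕ) (x : Fin n → WittVector p k) :
    M.T ((c : WittVector p k) • x) = (c : WittVector p k) • M.T x := by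
  rw [T_smul, map_natCast, map_natCast, map_natCast]

/-- The submodule generated by `Fⁱ u₀`, `Fⁱ u₁`, for `i = 0, 1, 2`. -/
noncomputable def lat (u₀ u₁ : Fin n → WittVector p k) :
    Submodule (WittVector p k) (Fin n → WittVector p k) :=
  Submodule.span (WittVector p k) (Set.range ![u₀, M.F u₀, M.F (M.F u₀), u₁, M.F u₁, M.F (M.F u₁)])

variable {M} {u₀ u₁ : Fin n → WittVector p k}

theorem lat_mem : u₀ ∈ M.lat u₀ u₁ ∧ M.F u₀ ∈ M.lat u₀ u₁ ∧ M.F (M.F u₀) ∈ M.lat u₀ u₁ ∧
    u₁ ∈ M.lat u₀ u₁ ∧ M.F u₁ ∈ M.lat u₀ u₁ ∧ M.F (M.F u₁) ∈ M.lat u₀ u₁ :=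
  ⟨Submodule.subset_span ⟨0, rfl⟩, Submodule.subset_span ⟨1, rfl⟩, Submodule.subset_span ⟨2, rfl⟩,
    Submodule.subset_span ⟨3, rfl⟩, Submodule.subset_span ⟨4, rfl⟩, Submodule.subset_span ⟨5, rfl⟩⟩

theorem lat_finrank : Module.finrank (WittVector p k) (M.lat u₀ u₁) ≤ 6 := by
  have h := finrank_range_le_card (R := WittVector p k)
    ![u₀, M.F u₀, M.F (M.F u₀), u₁, M.F u₁, M.F (M.F u₁)]
  rw [Fintype.card_fin] at h
  exact h

theorem lat_F {a : ℕ} {e h : ℤ} (h0 : M.T u₀ = ((p : WittVector p k) ^ a) • u₁)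
    (h1 : M.T u₁ = ((p : WittVector p k) ^ a) • ((e : WittVector p k) • u₀
      + (h : WittVector p k) • u₁)) (x : Fin n → WittVector p k) (hx : x ∈ M.lat u₀ u₁) :
    M.F x ∈ M.lat u₀ u₁ := by
  obtain ⟨m0, m1, m2, m3, m4, m5⟩ := lat_mem (M := M) (u₀ := u₀) (u₁ := u₁)
  induction hx using Submodule.span_induction with
  | mem x hx =>
    obtain ⟨i, rfl⟩ := hx
    fin_cases i
    · exact m1
    · exact m2
    · change M.T u₀ ∈ _
      rw [h0]
      exact Submodule.smul_mem _ _ m3
    · exact m4
    · exact m5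
    · change M.T u₁ ∈ _
      rw [h1]
      exact Submodule.smul_mem _ _ (Submodule.add_mem _ (Submodule.smul_mem _ _ m0)
        (Submodule.smul_mem _ _ m3))
  | zero => rw [F_zero]; exact Submodule.zero_mem _
  | add x y _ _ hx hy => rw [F_add]; exact Submodule.add_mem _ hx hy
  | smul a x _ hx => rw [F_smul]; exact Submodule.smul_mem _ _ hx

theorem lat_T {a : ℕ} {e h : ℤ} (he : e * e = 1) (h0 : M.T u₀ = ((p : WittVector p k) ^ a) • u₁)
    (h1 : M.T u₁ = ((p : WittVector p k) ^ a) • ((e : WittVector p k) • u₀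
      + (h : WittVector p k) • u₁)) :
    M.F^[3] '' (M.lat u₀ u₁) = (fun x => (p : WittVector p k) ^ a • x) '' (M.lat u₀ u₁) := by
  obtain ⟨m0, m1, m2, m3, m4, m5⟩ := lat_mem (M := M) (u₀ := u₀) (u₁ := u₁)
  have hP : ∀ x : Fin n → WittVector p k,
      M.F ((p : WittVector p k) ^ a • x) = (p : WittVector p k) ^ a • M.F x := by
    intro x
    have h2 := M.F_nat_smul (p ^ a) x
    rwa [Nat.cast_pow] at h2
  apply Set.Subset.antisymm
  · rintro _ ⟨x, hx, rfl⟩
    rw [T_eq]
    have hx' : x ∈ M.lat u₀ u₁ := hx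
    clear hx
    induction hx' using Submodule.span_induction with
    | mem x hx =>
      obtain ⟨i, rfl⟩ := hx
      fin_cases i
      · exact ⟨u₁, m3, h0.symm⟩
      · refine ⟨M.F u₁, m4, ?_⟩
        change (p : WittVector p k) ^ a • M.F u₁ = M.T (M.F u₀)
        rw [T_F, h0, hP]
      · refine ⟨M.F (M.F u₁), m5, ?_⟩
        change (p : WittVector p k) ^ a • M.F (M.F u₁) = M.T (M.F (M.F u₀))
        rw [T_F, T_F, h0, hP, hP]
      · exact ⟨_, Submodule.add_mem _ (Submodule.smul_mem _ _ m0) (Submodule.smul_mem _ _ m3),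
          h1.symm⟩
      · refine ⟨_, Submodule.add_mem _ (Submodule.smul_mem _ (e : WittVector p k) m1)
          (Submodule.smul_mem _ (h : WittVector p k) m4), ?_⟩
        change (p : WittVector p k) ^ a • ((e : WittVector p k) • M.F u₀
          + (h : WittVector p k) • M.F u₁) = M.T (M.F u₁)
        rw [T_F, h1, hP, F_add, F_int_smul, F_int_smul]
      · refine ⟨_, Submodule.add_mem _ (Submodule.smul_mem _ (e : WittVector p k) m2)
          (Submodule.smul_mem _ (h : WittVector p k) m5), ?_⟩
        change (p : WittVector p k) ^ a • ((e : WittVector p k) • M.F (M.F u₀)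
          + (h : WittVector p k) • M.F (M.F u₁)) = M.T (M.F (M.F u₁))
        rw [T_F, T_F, h1, hP, hP, F_add, F_add, F_int_smul, F_int_smul, F_int_smul, F_int_smul]
    | zero => exact ⟨0, Submodule.zero_mem _, by simp⟩
    | add x y _ _ hx hy =>
      obtain ⟨x', hx', hx⟩ := hx
      obtain ⟨y', hy', hy⟩ := hy
      refine ⟨x' + y', Submodule.add_mem _ hx' hy', ?_⟩
      simp only at hx hy ⊢
      rw [smul_add, hx, hy, map_add]
    | smul c x _ hx =>
      obtain ⟨x', hx', hx⟩ := hx
      refine ⟨frobenius (frobenius (frobenius c)) • x', Submodule.smul_mem _ _ hx', ?_⟩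
      simp only at hx ⊢
      rw [smul_comm, hx, T_smul]
  · rintro _ ⟨x, hx, rfl⟩
    have hx' : x ∈ M.lat u₀ u₁ := hx
    clear hx
    have e1 : M.T ((e : WittVector p k) • u₁ - ((e * h : ℤ) : WittVector p k) • u₀)
        = (p : WittVector p k) ^ a • u₀ := by
      rw [map_sub, T_int_smul, T_int_smul, h0, h1]
      have he' : (e : WittVector p k) * (e : WittVector p k) = 1 := by
        rw [← Int.cast_mul, he, Int.cast_one]
      ext i : 1
      simp only [Pi.sub_apply, Pi.smul_apply, Pi.add_apply, smul_eq_mul, Int.cast_mul]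
      linear_combination ((p : WittVector p k) ^ a * u₀ i) * he'
    induction hx' using Submodule.span_induction with
    | mem x hx =>
      obtain ⟨i, rfl⟩ := hx
      fin_cases i
      · exact ⟨_, Submodule.sub_mem _ (Submodule.smul_mem _ (e : WittVector p k) m3)
          (Submodule.smul_mem _ ((e * h : ℤ) : WittVector p k) m0), e1⟩
      · refine ⟨_, Submodule.sub_mem _ (Submodule.smul_mem _ (e : WittVector p k) m4)
          (Submodule.smul_mem _ ((e * h : ℤ) : WittVector p k) m1), ?_⟩
        change M.T ((e : WittVector p k) • M.F u₁ - ((e * h : ℤ) : WittVector p k) • M.F u₀)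
          = (p : WittVector p k) ^ a • M.F u₀
        rw [← hP, ← e1, ← T_F]
        congr 1
        rw [← F_int_smul, ← F_int_smul]
        exact (map_sub M.Fhom _ _).symm
      · refine ⟨_, Submodule.sub_mem _ (Submodule.smul_mem _ (e : WittVector p k) m5)
          (Submodule.smul_mem _ ((e * h : ℤ) : WittVector p k) m2), ?_⟩
        change M.T ((e : WittVector p k) • M.F (M.F u₁) - ((e * h : ℤ) : WittVector p k) • M.F (M.F u₀))
          = (p : WittVector p k) ^ a • M.F (M.F u₀)
        rw [← hP, ← hP, ← e1, ← T_F, ← T_F]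
        congr 1
        rw [← F_int_smul, ← F_int_smul, ← F_int_smul, ← F_int_smul]
        exact ((congrArg M.F (map_sub M.Fhom _ _)).trans (map_sub M.Fhom _ _)).symm
      · exact ⟨_, m0, h0⟩
      · refine ⟨_, m1, ?_⟩
        change M.T (M.F u₀) = (p : WittVector p k) ^ a • M.F u₁
        rw [T_F, h0, hP]
      · refine ⟨_, m2, ?_⟩
        change M.T (M.F (M.F u₀)) = (p : WittVector p k) ^ a • M.F (M.F u₁)
        rw [T_F, T_F, h0, hP, hP]
    | zero => exact ⟨0, Submodule.zero_mem _, by rw [T_eq, map_zero]; simp⟩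
    | add x y _ _ hx hy =>
      obtain ⟨x', hx', hx⟩ := hx
      obtain ⟨y', hy', hy⟩ := hy
      refine ⟨x' + y', Submodule.add_mem _ hx' hy', ?_⟩
      rw [T_eq] at hx hy ⊢
      simp only at hx hy ⊢
      rw [smul_add, map_add, hx, hy]
    | smul c x _ hx =>
      obtain ⟨x', hx', hx⟩ := hx
      obtain ⟨c1, rfl⟩ := (frobenius_bijective p k).surjective c
      obtain ⟨c2, rfl⟩ := (frobenius_bijective p k).surjective c1
      obtain ⟨c3, rfl⟩ := (frobenius_bijective p k).surjective c2
      refine ⟨c3 • x', Submodule.smul_mem _ _ hx', ?_⟩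
      rw [T_eq] at hx ⊢
      simp only at hx ⊢
      rw [smul_comm, ← hx, T_smul]

end DieudonneModule

end Pool.Agent.P8H34.UA
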