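import Pool.Agent.P8H34.UA.Slopes

/-!
# The Newton polygon of the examples
-/

set_option autoImplicit false

namespace Pool.Agent.P8H34.UA

open Matrix WittVector

universe u

variable {p : ℕ} [hp : Fact p.Prime] {k : Type u} [Field k] [CharP k p] [IsAlgClosed k]

theorem ranks {N₁ N₂ : Submodule (WittVector p k) (Fin 12 → WittVector p k)}
    (h1 : Module.finrank (WittVector p k) N₁ ≤ 6) (h2 : Module.finrank (WittVector p k) N₂ ≤ 6)
    {c : WittVector p k} (hc : c ≠ 0) (h : ∀ x : Fin 12 → WittVector p k, c • x ∈ N₁ ⊔ N₂) :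
    Module.finrank (WittVector p k) N₁ = 6 ∧ Module.finrank (WittVector p k) N₂ = 6 ∧
      Disjoint N₁ N₂ := by
  have h3 : 12 ≤ Module.finrank (WittVector p k) (N₁ ⊔ N₂ : Submodule _ _) := by
    let f : (Fin 12 → WittVector p k) →ₗ[WittVector p k] (N₁ ⊔ N₂ : Submodule _ _) :=
      LinearMap.codRestrict _ (c • LinearMap.id) h
    have hf : Function.Injective f := by
      intro x y hxy
      have h4 : c • x = c • y := congrArg Subtype.val hxy
      exact smul_right_injective _ hc h4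
    have h4 := LinearMap.finrank_le_finrank_of_injective hf
    rwa [Module.finrank_fin_fun] at h4
  have h4 := Submodule.rank_sup_add_rank_inf_eq N₁ N₂
  rw [← Module.finrank_eq_rank, ← Module.finrank_eq_rank, ← Module.finrank_eq_rank,
    ← Module.finrank_eq_rank] at h4
  have h5 : Module.finrank (WittVector p k) (N₁ ⊔ N₂ : Submodule _ _)
      + Module.finrank (WittVector p k) (N₁ ⊓ N₂ : Submodule _ _)
      = Module.finrank (WittVector p k) N₁ + Module.finrank (WittVector p k) N₂ := by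
    exact_mod_cast h4
  refine ⟨by omega, by omega, ?_⟩
  rw [disjoint_iff]
  exact Submodule.finrank_eq_zero.1 (by omega)

/-- The vectors of the standard basis. -/
noncomputable def e (i : Fin 12) : Fin 12 → WittVector p k := Pi.single i 1

theorem F_e_lt (g : ℕ) : (exM p k g).F (e 0) = (p : WittVector p k) • e 1 ∧
    (exM p k g).F (e 1) = (p : WittVector p k) • e 2 ∧
    (exM p k g).F (e 2) = (p : WittVector p k) • e 3 ∧
    (exM p k g).F (e 3) = (p : WittVector p k) • e 4 ∧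
    (exM p k g).F (e 4) = (p : WittVector p k) • e 5 ∧
    (exM p k g).F (e 5) = e 6 ∧ (exM p k g).F (e 6) = e 7 ∧ (exM p k g).F (e 7) = e 8 ∧
    (exM p k g).F (e 8) = e 9 ∧ (exM p k g).F (e 9) = e 10 ∧ (exM p k g).F (e 10) = e 11 := by
  refine ⟨?_, ?_, ?_, ?_, ?_, ?_, ?_, ?_, ?_, ?_, ?_⟩ <;>
  · rw [exM_F]
    ext i : 1
    fin_cases i <;> simp [e]

theorem F_e_11 (g : ℕ) : (exM p k g).F (e 11) = (p : WittVector p k) • e 0
    + ((p : WittVector p k) ^ 2 - p ^ 4) • e 6 + ((g : WittVector p k) * p) • e 9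
    + ((g : WittVector p k) * p ^ 3) • e 3 := by
  rw [exM_F]
  ext i : 1
  fin_cases i <;> simp [e]

theorem T_e_2 (g : ℕ) : (exM p k g).T (e 2) = ((p : WittVector p k) ^ 3) • e 5 := by
  obtain ⟨f0, f1, f2, f3, f4, f5, f6, f7, f8, f9, f10⟩ := F_e_lt (p := p) (k := k) g
  rw [DieudonneModule.T_apply, f2, DieudonneModule.F_nat_smul, f3, DieudonneModule.F_nat_smul,
    DieudonneModule.F_nat_smul, f4, smul_smul, smul_smul]
  congr 1
  ring

theorem T_e_5 (g : ℕ) : (exM p k g).T (e 5) = e 8 := by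
  obtain ⟨f0, f1, f2, f3, f4, f5, f6, f7, f8, f9, f10⟩ := F_e_lt (p := p) (k := k) g
  rw [DieudonneModule.T_apply, f5, f6, f7]

theorem T_e_8 (g : ℕ) : (exM p k g).T (e 8) = e 11 := by
  obtain ⟨f0, f1, f2, f3, f4, f5, f6, f7, f8, f9, f10⟩ := F_e_lt (p := p) (k := k) g
  rw [DieudonneModule.T_apply, f8, f9, f10]

theorem T_e_11 (g : ℕ) : (exM p k g).T (e 11) = ((p : WittVector p k) ^ 3) • e 2
    + ((p : WittVector p k) ^ 2 - p ^ 4) • e 8 + ((g : WittVector p k) * p) • e 11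
    + ((g : WittVector p k) * p ^ 5) • e 5 := by
  obtain ⟨f0, f1, f2, f3, f4, f5, f6, f7, f8, f9, f10⟩ := F_e_lt (p := p) (k := k) g
  rw [DieudonneModule.T_apply, F_e_11]
  simp only [DieudonneModule.F_add, DieudonneModule.F_smul, f0, f1, f3, f4, f6, f7, f9,
    f10, map_sub, map_mul, map_pow, map_natCast, smul_smul]
  ring_nf

theorem T_T_e_11 (g : ℕ) : (exM p k g).T ((exM p k g).T (e 11)) = ((p : WittVector p k) ^ 6) • e 5
    + ((p : WittVector p k) ^ 2 - p ^ 4) • e 11
    + ((g : WittVector p k) * p) • (exM p k g).T (e 11)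
    + ((g : WittVector p k) * p ^ 5) • e 8 := by
  conv_lhs => rw [T_e_11]
  simp only [map_add, DieudonneModule.T_smul, T_e_2, T_e_5, T_e_8, map_sub, map_mul, map_pow,
    map_natCast, smul_smul]
  ring_nf

/-- The generator `y' = (F⁶ + p⁴) x` of the part of slope `1/3`. -/
noncomputable def y1 : Fin 12 → WittVector p k := e 11 + ((p : WittVector p k) ^ 4) • e 5

/-- The generator `y'' = (F⁶ - g p F³ - p²) x` of the part of slope `2/3`. -/
noncomputable def y2 (g : ℕ) : Fin 12 → WittVector p k :=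
  e 11 - ((g : WittVector p k) * p) • e 8 - ((p : WittVector p k) ^ 2) • e 5

theorem T_T_y1 (g : ℕ) : (exM p k g).T ((exM p k g).T y1)
    = ((g : WittVector p k) * p) • (exM p k g).T y1 + ((p : WittVector p k) ^ 2) • y1 := by
  simp only [y1, map_add, DieudonneModule.T_smul, T_T_e_11, T_e_5, T_e_8, map_pow, map_natCast]
  module

theorem T_T_y2 (g : ℕ) : (exM p k g).T ((exM p k g).T (y2 g))
    = (-(p : WittVector p k) ^ 4) • y2 g := by
  simp only [y2, map_sub, DieudonneModule.T_smul, T_T_e_11, T_e_5, T_e_8, map_mul, map_pow,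
    map_natCast]
  module

theorem DieudonneModule.F_injective {n : ℕ} (M : DieudonneModule p k n) {x : Fin n → WittVector p k}
    (hx : M.F x = 0) : x = 0 := by
  have h1 : (M.B.map (frobenius : WittVector p k →+* WittVector p k)) *ᵥ M.F x = 0 := by
    rw [hx, Matrix.mulVec_zero]
  rw [DieudonneModule.F, Matrix.mulVec_mulVec, M.mul_eq', Matrix.smul_mulVec, Matrix.one_mulVec] at h1
  ext i : 1
  have h2 := congrFun h1 i
  simp only [Pi.smul_apply, Pi.zero_apply, smul_eq_mul, mul_eq_zero] at h2 ⊢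
  rcases h2 with h2 | h2
  · exact absurd h2 (WittVector.p_nonzero p k)
  · exact (frobenius_bijective p k).injective (h2.trans (map_zero _).symm)

theorem DieudonneModule.T_injective {n : ℕ} (M : DieudonneModule p k n)
    {x y : Fin n → WittVector p k} (hxy : M.T x = M.T y) : x = y := by
  have h1 : M.T (x - y) = 0 := by rw [map_sub, hxy, sub_self]
  exact sub_eq_zero.1 (M.F_injective (M.F_injective (M.F_injective h1)))

/-- The submodule of slope `1/3`. -/
noncomputable def lat1 (g : ℕ) : Submodule (WittVector p k) (Fin 12 → WittVector p k) :=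
  (exM p k g).lat ((p : WittVector p k) • y1) ((exM p k g).T y1)

/-- The submodule of slope `2/3`. -/
noncomputable def lat2 (g : ℕ) : Submodule (WittVector p k) (Fin 12 → WittVector p k) :=
  (exM p k g).lat ((p : WittVector p k) ^ 2 • y2 g) ((exM p k g).T (y2 g))

theorem lat1_h0 (g : ℕ) : (exM p k g).T ((p : WittVector p k) • y1)
    = (p : WittVector p k) ^ 1 • (exM p k g).T y1 := by
  rw [DieudonneModule.T_nat_smul, pow_one]

theorem lat1_h1 (g : ℕ) : (exM p k g).T ((exM p k g).T y1)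
    = (p : WittVector p k) ^ 1 • (((1 : ℤ) : WittVector p k) • ((p : WittVector p k) • y1)
      + ((g : ℤ) : WittVector p k) • (exM p k g).T y1) := by
  rw [T_T_y1, Int.cast_one, Int.cast_natCast]
  module

theorem lat2_h0 (g : ℕ) : (exM p k g).T ((p : WittVector p k) ^ 2 • y2 g)
    = (p : WittVector p k) ^ 2 • (exM p k g).T (y2 g) := by
  rw [DieudonneModule.T_smul, map_pow, map_pow, map_pow, map_natCast, map_natCast, map_natCast]

theorem lat2_h1 (g : ℕ) : (exM p k g).T ((exM p k g).T (y2 g))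
    = (p : WittVector p k) ^ 2 • (((-1 : ℤ) : WittVector p k) • ((p : WittVector p k) ^ 2 • y2 g)
      + ((0 : ℤ) : WittVector p k) • (exM p k g).T (y2 g)) := by
  rw [T_T_y2, Int.cast_zero, Int.cast_neg, Int.cast_one]
  module

theorem sup_F (g : ℕ) (x : Fin 12 → WittVector p k) (hx : x ∈ lat1 g ⊔ lat2 g) :
    (exM p k g).F x ∈ lat1 g ⊔ lat2 g := by
  obtain ⟨y, hy, z, hz, rfl⟩ := Submodule.mem_sup.1 hx
  rw [DieudonneModule.F_add]
  exact Submodule.mem_sup.2 ⟨_, DieudonneModule.lat_F (lat1_h0 g) (lat1_h1 g) y hy, _,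
    DieudonneModule.lat_F (lat2_h0 g) (lat2_h1 g) z hz, rfl⟩

theorem sup_T (g : ℕ) (x : Fin 12 → WittVector p k) (hx : x ∈ lat1 g ⊔ lat2 g) :
    ∃ s ∈ lat1 g ⊔ lat2 g, (exM p k g).T s = (p : WittVector p k) ^ 2 • x := by
  obtain ⟨y, hy, z, hz, rfl⟩ := Submodule.mem_sup.1 hx
  have h1 := DieudonneModule.lat_T (by norm_num) (lat1_h0 (p := p) (k := k) g) (lat1_h1 g)
  have h2 := DieudonneModule.lat_T (by norm_num) (lat2_h0 (p := p) (k := k) g) (lat2_h1 g)
  have h3 : (p : WittVector p k) ^ 1 • ((p : WittVector p k) • y)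
      ∈ (fun x => (p : WittVector p k) ^ 1 • x) '' ((lat1 (p := p) (k := k) g : Submodule _ _) : Set _) :=
    Set.mem_image_of_mem _ (SetLike.mem_coe.2 ((lat1 g).smul_mem (p : WittVector p k) hy))
  have h4 : (p : WittVector p k) ^ 2 • z
      ∈ (fun x => (p : WittVector p k) ^ 2 • x) '' ((lat2 (p := p) (k := k) g : Submodule _ _) : Set _) :=
    Set.mem_image_of_mem _ (SetLike.mem_coe.2 hz)
  rw [lat1, ← h1] at h3
  rw [lat2, ← h2] at h4
  obtain ⟨s, hs, hs'⟩ := h3
  obtain ⟨t, ht, ht'⟩ := h4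
  refine ⟨s + t, Submodule.mem_sup.2 ⟨s, hs, t, ht, rfl⟩, ?_⟩
  rw [map_add]
  rw [DieudonneModule.T_eq] at hs' ht'
  rw [hs', ht', smul_add, smul_smul, pow_one, ← pow_two]

/-- The constant `p⁵ (g² p² + (1 + p²)²)`. -/
def cst (p g : ℕ) : ℕ := p ^ 5 * (g ^ 2 * p ^ 2 + (1 + p ^ 2) ^ 2)

theorem e5_mem (g : ℕ) :
    ((cst p g : ℕ) : WittVector p k) • (e 5 : Fin 12 → WittVector p k) ∈ lat1 g ⊔ lat2 g := by
  obtain ⟨m0, m1, m2, m3, m4, m5⟩ := DieudonneModule.lat_mem (M := exM p k g)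
    (u₀ := (p : WittVector p k) • y1) (u₁ := (exM p k g).T y1)
  obtain ⟨n0, n1, n2, n3, n4, n5⟩ := DieudonneModule.lat_mem (M := exM p k g)
    (u₀ := (p : WittVector p k) ^ 2 • y2 g) (u₁ := (exM p k g).T (y2 g))
  refine Submodule.mem_sup.2 ⟨((p : WittVector p k) * (p * g ^ 2 + (p + p ^ 3)))
      • ((p : WittVector p k) • y1) - ((g : WittVector p k) * p ^ 2) • (exM p k g).T y1,
    Submodule.sub_mem _ (Submodule.smul_mem _ _ m0) (Submodule.smul_mem _ _ m3),
    ((g : WittVector p k) * p ^ 2) • (exM p k g).T (y2 g)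
      - ((p : WittVector p k) + p ^ 3) • ((p : WittVector p k) ^ 2 • y2 g),
    Submodule.sub_mem _ (Submodule.smul_mem _ _ n3) (Submodule.smul_mem _ _ n0), ?_⟩
  have h : ((cst p g : ℕ) : WittVector p k)
      = (p : WittVector p k) ^ 5 * (g ^ 2 * p ^ 2 + (1 + p ^ 2) ^ 2) := by
    simp [cst]
  rw [h]
  simp only [y1, y2, map_add, map_sub, DieudonneModule.T_smul, T_e_5, T_e_8, map_mul, map_pow,
    map_natCast]
  module

theorem all_mem (g : ℕ) (i : Fin 12) :
    (((p ^ 2 * cst p g : ℕ) : WittVector p k)) • (e i : Fin 12 → WittVector p k)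
      ∈ lat1 g ⊔ lat2 g := by
  obtain ⟨f0, f1, f2, f3, f4, f5, f6, f7, f8, f9, f10⟩ := F_e_lt (p := p) (k := k) g
  have hF := fun (c : ℕ) (x : Fin 12 → WittVector p k) (hx : (c : WittVector p k) • x
      ∈ lat1 g ⊔ lat2 g) => (DieudonneModule.F_nat_smul (exM p k g) c x) ▸ sup_F g _ hx
  have a5 := e5_mem (p := p) (k := k) g
  have a6 := f5 ▸ hF _ _ a5
  have a7 := f6 ▸ hF _ _ a6
  have a8 := f7 ▸ hF _ _ a7
  have a9 := f8 ▸ hF _ _ a8
  have a10 := f9 ▸ hF _ _ a9
  have a11 := f10 ▸ hF _ _ a10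
  have a2 : ((cst p g : ℕ) : WittVector p k) • (e 2 : Fin 12 → WittVector p k) ∈ lat1 g ⊔ lat2 g := by
    obtain ⟨s, hs, hs'⟩ := sup_T g _ a5
    have h1 : (p : WittVector p k) • s = ((cst p g : ℕ) : WittVector p k) • e 2 := by
      refine (exM p k g).T_injective ?_
      rw [DieudonneModule.T_nat_smul, DieudonneModule.T_nat_smul, hs', T_e_2]
      module
    rw [← h1]
    exact Submodule.smul_mem _ _ hs
  have a3 : ((p * cst p g : ℕ) : WittVector p k) • (e 3 : Fin 12 → WittVector p k) ∈ lat1 g ⊔ lat2 g := by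
    have h1 := f2 ▸ hF _ _ a2
    rw [smul_smul] at h1
    rw [Nat.cast_mul, mul_comm]
    exact h1
  have a4 : ((p * (p * cst p g) : ℕ) : WittVector p k) • (e 4 : Fin 12 → WittVector p k)
      ∈ lat1 g ⊔ lat2 g := by
    have h1 := f3 ▸ hF _ _ a3
    rw [smul_smul] at h1
    rw [Nat.cast_mul, mul_comm]
    exact h1
  have a0 : ((cst p g : ℕ) : WittVector p k) • (e 0 : Fin 12 → WittVector p k) ∈ lat1 g ⊔ lat2 g := by
    obtain ⟨s, hs, hs'⟩ := sup_T g _ a3
    have h1 : s = ((cst p g : ℕ) : WittVector p k) • e 0 := by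
      refine (exM p k g).T_injective ?_
      rw [DieudonneModule.T_nat_smul, hs', DieudonneModule.T_apply, f0,
        DieudonneModule.F_nat_smul, DieudonneModule.F_nat_smul, f1, DieudonneModule.F_nat_smul, f2,
        Nat.cast_mul]
      module
    rw [← h1]
    exact hs
  have a1 : ((p * cst p g : ℕ) : WittVector p k) • (e 1 : Fin 12 → WittVector p k) ∈ lat1 g ⊔ lat2 g := by
    have h1 := f0 ▸ hF _ _ a0
    rw [smul_smul] at h1
    rw [Nat.cast_mul, mul_comm]
    exact h1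
  have hmul : ∀ (c d : ℕ) (x : Fin 12 → WittVector p k), (d : WittVector p k) • x
      ∈ lat1 g ⊔ lat2 g → ((c * d : ℕ) : WittVector p k) • x ∈ lat1 g ⊔ lat2 g := by
    intro c d x hx
    rw [Nat.cast_mul, ← smul_smul]
    exact Submodule.smul_mem _ _ hx
  have e1 : p ^ 2 * cst p g = p * (p * cst p g) := by ring
  fin_cases i
  · exact hmul _ _ _ a0
  · rw [e1]; exact hmul _ _ _ a1
  · exact hmul _ _ _ a2
  · rw [e1]; exact hmul _ _ _ a3
  · rw [e1]; exact a4
  · exact hmul _ _ _ a5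
  · exact hmul _ _ _ a6
  · exact hmul _ _ _ a7
  · exact hmul _ _ _ a8
  · exact hmul _ _ _ a9
  · exact hmul _ _ _ a10
  · exact hmul _ _ _ a11

theorem exM_hasSlopes (g : ℕ) : (exM p k g).HasSlopes ![1, 2] ![3, 3] ![6, 6] := by
  have h0 : ((p ^ 2 * cst p g : ℕ) : WittVector p k) ≠ 0 := by
    have h1 : ((p ^ 2 * cst p g : ℕ) : WittVector p k)
        = (p : WittVector p k) ^ 7 * ((g ^ 2 * p ^ 2 + (1 + p ^ 2) ^ 2 : ℕ) : WittVector p k) := by
      simp only [cst]
      push_cast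
      ring
    rw [h1]
    refine mul_ne_zero (pow_ne_zero _ (WittVector.p_nonzero p k)) fun h2 => ?_
    have h3 : (constantCoeff : WittVector p k →+* k)
        ((g ^ 2 * p ^ 2 + (1 + p ^ 2) ^ 2 : ℕ) : WittVector p k) = 0 := by rw [h2, map_zero]
    rw [map_natCast] at h3
    push_cast at h3
    rw [CharP.cast_eq_zero k p] at h3
    norm_num at h3
  have h1 : ∀ x : Fin 12 → WittVector p k,
      ((p ^ 2 * cst p g : ℕ) : WittVector p k) • x ∈ lat1 g ⊔ lat2 g := by
    intro x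
    have h2 : x = ∑ i, x i • (e i : Fin 12 → WittVector p k) := by
      ext j : 1
      simp [e, Finset.sum_apply, Pi.single_apply]
    rw [h2, Finset.smul_sum]
    refine Submodule.sum_mem _ fun i _ => ?_
    rw [smul_comm]
    exact Submodule.smul_mem _ _ (all_mem g i)
  obtain ⟨r1, r2, r3⟩ := ranks (N₁ := lat1 g) (N₂ := lat2 g) DieudonneModule.lat_finrank
    DieudonneModule.lat_finrank h0 h1
  refine ⟨![lat1 g, lat2 g], fun i => ?_, ?_, by simp [Fin.sum_univ_two]⟩
  · fin_cases i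
    · exact ⟨by norm_num, DieudonneModule.lat_F (lat1_h0 g) (lat1_h1 g), r1,
        DieudonneModule.lat_T (by norm_num) (lat1_h0 g) (lat1_h1 g)⟩
    · exact ⟨by norm_num, DieudonneModule.lat_F (lat2_h0 g) (lat2_h1 g), r2,
        DieudonneModule.lat_T (by norm_num) (lat2_h0 g) (lat2_h1 g)⟩
  · rw [iSupIndep_pair (i := (0 : Fin 2)) (j := 1) (by decide) (by decide)]
    exact r3

end Pool.Agent.P8H34.UA
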